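import Pool.Agent.Helper71.E5.WStmts2
import Pool.Agent.Helper1.E5.TB

/-!
MP_efd95c_co, contractions of at most five disks: two folds (row FOLDP).
-/

set_option autoImplicit false

open scoped MeasureTheory ENNReal Topology
open Complex

noncomputable section

namespace E5
namespace H22

/-- the hub and four points in polar coordinates -/
def W5 (ra rx ry rb s1 s2 s3 s4 : ℝ) : Fin 5 → ℂ :=
  ![0, (ra : ℂ) * AX.e s1, (rx : ℂ) * AX.e s2, (ry : ℂ) * AX.e s3, (rb : ℂ) * AX.e s4]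

theorem e_per22 (t : ℝ) : AX.e (t + 2 * Real.pi) = AX.e t := by
  unfold AX.e
  push_cast
  rw [add_mul, Complex.exp_add, Complex.exp_two_pi_mul_I, mul_one]

theorem fold5 {ra rx ry rb : ℝ} (h1 : 0 ≤ ra) (h2 : 0 ≤ rx) (h3 : 0 ≤ ry) (h4 : 0 ≤ rb)
    (φ : ℝ) {s1 s2 s3 s4 u1 u2 u3 u4 : ℝ}
    (k1 : (φ - Real.pi ≤ s1 ∧ s1 ≤ φ ∧ u1 = s1) ∨ (φ ≤ s1 ∧ s1 ≤ φ + Real.pi ∧ u1 = 2 * φ - s1))
    (k2 : (φ - Real.pi ≤ s2 ∧ s2 ≤ φ ∧ u2 = s2) ∨ (φ ≤ s2 ∧ s2 ≤ φ + Real.pi ∧ u2 = 2 * φ - s2))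
    (k3 : (φ - Real.pi ≤ s3 ∧ s3 ≤ φ ∧ u3 = s3) ∨ (φ ≤ s3 ∧ s3 ≤ φ + Real.pi ∧ u3 = 2 * φ - s3))
    (k4 : (φ - Real.pi ≤ s4 ∧ s4 ≤ φ ∧ u4 = s4) ∨ (φ ≤ s4 ∧ s4 ≤ φ + Real.pi ∧ u4 = 2 * φ - s4)) :
    per (W5 ra rx ry rb s1 s2 s3 s4) ≤ per (W5 ra rx ry rb u1 u2 u3 u4) := by
  have h := per_fold (![0, ra, rx, ry, rb] : Fin 5 → ℝ) (![φ, s1, s2, s3, s4] : Fin 5 → ℝ)
    (![φ, u1, u2, u3, u4] : Fin 5 → ℝ) φ (by
      intro i
      fin_cases i
      · exact le_refl (0 : ℝ)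
      · exact h1
      · exact h2
      · exact h3
      · exact h4) (by
      intro i
      fin_cases i
      · left
        have := Real.pi_pos
        refine ⟨?_, ?_, ?_⟩
        · show φ - Real.pi ≤ φ
          linarith
        · show φ ≤ φ
          exact le_refl _
        · rfl
      · exact k1
      · exact k2
      · exact k3
      · exact k4)
  have e1 : (fun i : Fin 5 => (((![0, ra, rx, ry, rb] : Fin 5 → ℝ) i : ℝ) : ℂ) *
      AX.e ((![φ, s1, s2, s3, s4] : Fin 5 → ℝ) i)) = W5 ra rx ry rb s1 s2 s3 s4 := by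
    funext i
    fin_cases i
    · show ((0 : ℝ) : ℂ) * AX.e φ = 0
      rw [Complex.ofReal_zero, zero_mul]
    · rfl
    · rfl
    · rfl
    · rfl
  have e2 : (fun i : Fin 5 => (((![0, ra, rx, ry, rb] : Fin 5 → ℝ) i : ℝ) : ℂ) *
      AX.e ((![φ, u1, u2, u3, u4] : Fin 5 → ℝ) i)) = W5 ra rx ry rb u1 u2 u3 u4 := by
    funext i
    fin_cases i
    · show ((0 : ℝ) : ℂ) * AX.e φ = 0
      rw [Complex.ofReal_zero, zero_mul]
    · rfl
    · rfl
    · rfl
    · rfl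
  rw [e1, e2] at h
  exact h

theorem rot5 (ra rx ry rb s1 s2 s3 s4 d : ℝ) :
    per (W5 ra rx ry rb (d + s1) (d + s2) (d + s3) (d + s4)) =
      per (W5 ra rx ry rb s1 s2 s3 s4) := by
  rw [← per_rot (AX.e d) (e_norm d) (W5 ra rx ry rb s1 s2 s3 s4)]
  congr 1
  funext i
  fin_cases i
  · show (0 : ℂ) = AX.e d * 0
    rw [mul_zero]
  · show (ra : ℂ) * AX.e (d + s1) = AX.e d * ((ra : ℂ) * AX.e s1)
    rw [e_add]; ring
  · show (rx : ℂ) * AX.e (d + s2) = AX.e d * ((rx : ℂ) * AX.e s2)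
    rw [e_add]; ring
  · show (ry : ℂ) * AX.e (d + s3) = AX.e d * ((ry : ℂ) * AX.e s3)
    rw [e_add]; ring
  · show (rb : ℂ) * AX.e (d + s4) = AX.e d * ((rb : ℂ) * AX.e s4)
    rw [e_add]; ring

theorem conj5 (ra rx ry rb s1 s2 s3 s4 : ℝ) :
    per (W5 ra rx ry rb (-s1) (-s2) (-s3) (-s4)) = per (W5 ra rx ry rb s1 s2 s3 s4) := by
  rw [← per_conj (W5 ra rx ry rb s1 s2 s3 s4)]
  congr 1
  funext i
  fin_cases i
  · show (0 : ℂ) = (starRingEnd ℂ) 0
    rw [map_zero]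
  · show (ra : ℂ) * AX.e (-s1) = (starRingEnd ℂ) ((ra : ℂ) * AX.e s1)
    rw [map_mul, e_conj, Complex.conj_ofReal]
  · show (rx : ℂ) * AX.e (-s2) = (starRingEnd ℂ) ((rx : ℂ) * AX.e s2)
    rw [map_mul, e_conj, Complex.conj_ofReal]
  · show (ry : ℂ) * AX.e (-s3) = (starRingEnd ℂ) ((ry : ℂ) * AX.e s3)
    rw [map_mul, e_conj, Complex.conj_ofReal]
  · show (rb : ℂ) * AX.e (-s4) = (starRingEnd ℂ) ((rb : ℂ) * AX.e s4)
    rw [map_mul, e_conj, Complex.conj_ofReal]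

/-- one angle may be changed by a full turn -/
theorem turn5_2 (ra rx ry rb s1 s2 s3 s4 : ℝ) :
    W5 ra rx ry rb s1 (s2 + 2 * Real.pi) s3 s4 = W5 ra rx ry rb s1 s2 s3 s4 := by
  unfold W5
  rw [e_per22]

theorem turn5_3 (ra rx ry rb s1 s2 s3 s4 : ℝ) :
    W5 ra rx ry rb s1 s2 (s3 + 2 * Real.pi) s4 = W5 ra rx ry rb s1 s2 s3 s4 := by
  unfold W5
  rw [e_per22]

theorem turn5_4 (ra rx ry rb s1 s2 s3 s4 : ℝ) :
    W5 ra rx ry rb s1 s2 s3 (s4 + 2 * Real.pi) = W5 ra rx ry rb s1 s2 s3 s4 := by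
  unfold W5
  rw [e_per22]

end H22

open H22

theorem FOLDP : ST_FOLDP := by
  intro p q ap bp aq bq ra rx ry rb φ b1 b2 b3 ψ t1 t2 t3 t4 hM hp hq hqf q0 q1 q2 q3 q4
    p0 p1 p3 p2 p4 hQ hP h4
  have hpi := Real.pi_pos
  have hra := hQ.ra0.le
  have hrx := hQ.rx0.le
  have hry := hQ.ry0.le
  have hrb := hQ.rb0.le
  have b10 := hQ.b10
  have b20 := hQ.b20
  have b30 := hQ.b30
  have bs := hQ.bs
  have ts := hP.ts
  have hpe : per p = per (W5 ra rx ry rb 0 (t1 + t2) t1 (t1 + t2 + t3)) := by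
    rw [← rot5 ra rx ry rb 0 (t1 + t2) t1 (t1 + t2 + t3) ψ]
    congr 1
    funext i
    fin_cases i
    · exact p0
    · show p 1 = (ra : ℂ) * AX.e (ψ + 0)
      rw [p1, add_zero]
    · show p 2 = (rx : ℂ) * AX.e (ψ + (t1 + t2))
      rw [p2, add_assoc]
    · exact p3
    · show p 4 = (rb : ℂ) * AX.e (ψ + (t1 + t2 + t3))
      rw [p4]
      congr 2
      ring
  have hqe : per q = per (W5 ra rx ry rb 0 b1 (b1 + b2) (b1 + b2 + b3)) := by
    rw [← rot5 ra rx ry rb 0 b1 (b1 + b2) (b1 + b2 + b3) φ]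
    congr 1
    funext i
    fin_cases i
    · exact q0
    · show q 1 = (ra : ℂ) * AX.e (φ + 0)
      rw [q1, add_zero]
    · exact q2
    · show q 3 = (ry : ℂ) * AX.e (φ + (b1 + b2))
      rw [q3, add_assoc]
    · show q 4 = (rb : ℂ) * AX.e (φ + (b1 + b2 + b3))
      rw [q4]
      congr 2
      ring
  have hpos := hM.pos
  rw [hpe, hqe] at hpos
  have hqm : per (W5 ra rx ry rb 0 b1 (b1 + b2) (b1 + b2 + b3)) =
      per (W5 ra rx ry rb 0 (-b1) (-(b1 + b2)) (-(b1 + b2 + b3))) := by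
    rw [← conj5 ra rx ry rb 0 b1 (b1 + b2) (b1 + b2 + b3), neg_zero]
  refine ⟨?_, ?_, ?_⟩
  · intro e1 e3
    -- position of `b` and `x`
    have hb : W5 ra rx ry rb 0 (t1 + t2) t1 (t1 + t2 + t3) =
        W5 ra rx ry rb 0 (t1 + t2) t1 (-(b1 + b2 + b3)) := by
      rw [← turn5_4 ra rx ry rb 0 (t1 + t2) t1 (-(b1 + b2 + b3))]
      congr 1
      linarith
    have hx : W5 ra rx ry rb 0 (t1 + t2) t1 (-(b1 + b2 + b3)) =
        W5 ra rx ry rb 0 (-(b1 + b2 + b3) - (b2 + b3)) t1 (-(b1 + b2 + b3)) := by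
      rw [← turn5_2 ra rx ry rb 0 (-(b1 + b2 + b3) - (b2 + b3)) t1 (-(b1 + b2 + b3))]
      congr 1
      linarith
    constructor
    · by_contra hn
      push Not at hn
      have f1 : per (W5 ra rx ry rb 0 (t1 + t2) t1 (-(b1 + b2 + b3))) ≤
          per (W5 ra rx ry rb 0 (-b1) t1 (-(b1 + b2 + b3))) := by
        apply fold5 hra hrx hry hrb (Real.pi - (b1 + b2 + b3))
        · left
          refine ⟨?_, ?_, ?_⟩ <;> linarith
        · right
          refine ⟨?_, ?_, ?_⟩ <;> linarith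
        · left
          refine ⟨?_, ?_, ?_⟩ <;> linarith
        · left
          refine ⟨?_, ?_, ?_⟩ <;> linarith
      have f2 : per (W5 ra rx ry rb 0 (-b1) t1 (-(b1 + b2 + b3))) ≤
          per (W5 ra rx ry rb 0 (-b1) (-(b1 + b2)) (-(b1 + b2 + b3))) := by
        apply fold5 hra hrx hry hrb 0
        · left
          refine ⟨?_, ?_, ?_⟩ <;> linarith
        · left
          refine ⟨?_, ?_, ?_⟩ <;> linarith
        · right
          refine ⟨?_, ?_, ?_⟩ <;> linarith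
        · left
          refine ⟨?_, ?_, ?_⟩ <;> linarith
      rw [hb, hqm] at hpos
      linarith
    · by_contra hn
      push Not at hn
      have f1 : per (W5 ra rx ry rb 0 (-(b1 + b2 + b3) - (b2 + b3)) t1 (-(b1 + b2 + b3))) ≤
          per (W5 ra rx ry rb 0 (-(b1 + b2 + b3) - (b2 + b3)) (-(b1 + b2))
            (-(b1 + b2 + b3))) := by
        apply fold5 hra hrx hry hrb 0
        · left
          refine ⟨?_, ?_, ?_⟩ <;> linarith
        · left
          refine ⟨?_, ?_, ?_⟩ <;> linarith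
        · right
          refine ⟨?_, ?_, ?_⟩ <;> linarith
        · left
          refine ⟨?_, ?_, ?_⟩ <;> linarith
      have f2 : per (W5 ra rx ry rb 0 (-(b1 + b2 + b3) - (b2 + b3)) (-(b1 + b2))
          (-(b1 + b2 + b3))) ≤
          per (W5 ra rx ry rb 0 (-b1) (-(b1 + b2)) (-(b1 + b2 + b3))) := by
        rw [← turn5_2]
        apply fold5 hra hrx hry hrb (Real.pi - (b1 + b2 + b3))
        · left
          refine ⟨?_, ?_, ?_⟩ <;> linarith
        · right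
          refine ⟨?_, ?_, ?_⟩ <;> linarith
        · left
          refine ⟨?_, ?_, ?_⟩ <;> linarith
        · left
          refine ⟨?_, ?_, ?_⟩ <;> linarith
      rw [hb, hx, hqm] at hpos
      linarith
  · intro e1 e2
    by_contra hn
    push Not at hn
    have hb : W5 ra rx ry rb 0 (t1 + t2) t1 (t1 + t2 + t3) =
        W5 ra rx ry rb 0 (t1 + t2) t1 (-(b1 + b2 + b3)) := by
      rw [← turn5_4 ra rx ry rb 0 (t1 + t2) t1 (-(b1 + b2 + b3))]
      congr 1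
      linarith
    have f1 : per (W5 ra rx ry rb 0 (t1 + t2) t1 (-(b1 + b2 + b3))) ≤
        per (W5 ra rx ry rb 0 b1 (b1 + b2) (-(b1 + b2 + b3))) := by
      apply fold5 hra hrx hry hrb (b1 + b2)
      · left
        refine ⟨?_, ?_, ?_⟩ <;> linarith
      · right
        refine ⟨?_, ?_, ?_⟩ <;> linarith
      · left
        refine ⟨?_, ?_, ?_⟩ <;> linarith
      · left
        refine ⟨?_, ?_, ?_⟩ <;> linarith
    have f2 : per (W5 ra rx ry rb 0 b1 (b1 + b2) (-(b1 + b2 + b3))) ≤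
        per (W5 ra rx ry rb 0 b1 (b1 + b2) (b1 + b2 + b3)) := by
      rw [← turn5_4]
      apply fold5 hra hrx hry hrb Real.pi
      · left
        refine ⟨?_, ?_, ?_⟩ <;> linarith
      · left
        refine ⟨?_, ?_, ?_⟩ <;> linarith
      · left
        refine ⟨?_, ?_, ?_⟩ <;> linarith
      · right
        refine ⟨?_, ?_, ?_⟩ <;> linarith
    rw [hb] at hpos
    linarith
  · intro e3 e2
    by_contra hn
    push Not at hn
    have hb : W5 ra rx ry rb 0 (t1 + t2) t1 (t1 + t2 + t3) =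
        W5 ra rx ry rb 0 (t1 + t2) t1 (-(b1 + b2 + b3)) := by
      rw [← turn5_4 ra rx ry rb 0 (t1 + t2) t1 (-(b1 + b2 + b3))]
      congr 1
      linarith
    have hx : W5 ra rx ry rb 0 (t1 + t2) t1 (-(b1 + b2 + b3)) =
        W5 ra rx ry rb 0 (-(b1 + b2 + b3) - (b2 + b3)) t1 (-(b1 + b2 + b3)) := by
      rw [← turn5_2 ra rx ry rb 0 (-(b1 + b2 + b3) - (b2 + b3)) t1 (-(b1 + b2 + b3))]
      congr 1
      linarith
    have f1 : per (W5 ra rx ry rb 0 (-(b1 + b2 + b3) - (b2 + b3)) t1 (-(b1 + b2 + b3))) ≤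
        per (W5 ra rx ry rb 0 (-(b1 + b2 + b3) - (b2 + b3)) (-(b1 + b2 + b3) - b3)
          (-(b1 + b2 + b3))) := by
      apply fold5 hra hrx hry hrb (Real.pi - (b1 + b2 + b3) - (b2 + b3))
      · left
        refine ⟨?_, ?_, ?_⟩ <;> linarith
      · left
        refine ⟨?_, ?_, ?_⟩ <;> linarith
      · right
        refine ⟨?_, ?_, ?_⟩ <;> linarith
      · left
        refine ⟨?_, ?_, ?_⟩ <;> linarith
    have f2 : per (W5 ra rx ry rb 0 (-(b1 + b2 + b3) - (b2 + b3)) (-(b1 + b2 + b3) - b3)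
        (-(b1 + b2 + b3))) ≤
        per (W5 ra rx ry rb (-2 * (b1 + b2 + b3)) (-(b1 + b2 + b3) - (b2 + b3))
          (-(b1 + b2 + b3) - b3) (-(b1 + b2 + b3))) := by
      apply fold5 hra hrx hry hrb (-(b1 + b2 + b3))
      · right
        refine ⟨?_, ?_, ?_⟩ <;> linarith
      · left
        refine ⟨?_, ?_, ?_⟩ <;> linarith
      · left
        refine ⟨?_, ?_, ?_⟩ <;> linarith
      · left
        refine ⟨?_, ?_, ?_⟩ <;> linarith
    have f3 : per (W5 ra rx ry rb (-2 * (b1 + b2 + b3)) (-(b1 + b2 + b3) - (b2 + b3))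
          (-(b1 + b2 + b3) - b3) (-(b1 + b2 + b3))) =
        per (W5 ra rx ry rb 0 b1 (b1 + b2) (b1 + b2 + b3)) := by
      rw [← rot5 ra rx ry rb 0 b1 (b1 + b2) (b1 + b2 + b3) (-2 * (b1 + b2 + b3))]
      congr 2 <;> ring
    rw [hb, hx] at hpos
    linarith

end E5
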