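import Pool.Agent.Helper71.E5.WStmts
import Pool.Agent.Helper71.E5.AXAll
import Pool.Agent.Helper29.E5.ORD
import Pool.Agent.Helper36.E5.LG
import Pool.Agent.Helper71.E5.Cyc

/-!
MP_efd95c_co, contractions of at most five disks: the rim diagonals of a wheel are slack
(rows G1C, G1B of the table efd5wrows).
-/

set_option autoImplicit false

open scoped MeasureTheory ENNReal
open Complex

noncomputable section

namespace E5
namespace H22

variable {n : ℕ} {c : Fin n → ℂ} {M : ℕ} {g : ℤ → Fin n} {a b : ℤ → ℝ}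

theorem mem_K22 {m : ℕ} (d : Fin m → ℂ) (z : ℂ) : z ∈ AX.K 1 d ↔ ∀ i, dist z (d i) ≤ 1 := by
  simp only [AX.K, Set.mem_iInter, Metric.mem_closedBall]

/-- different positions in one period belong to different centres -/
theorem hd_ne22 (h : HD c M g a b) {k l : ℤ} (h1 : k < l) (h2 : l < k + M) :
    c (g k) ≠ c (g l) := by
  intro he
  obtain ⟨z, hz⟩ := h.ginj k l (h.inj he)
  have hM : (0 : ℤ) < M := by have := h.two; omega
  have h3 : 0 < z := by
    by_contra hz0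
    have : (M : ℤ) * z ≤ 0 := mul_nonpos_of_nonneg_of_nonpos hM.le (not_lt.1 hz0)
    omega
  have h4 : (M : ℤ) * 1 ≤ (M : ℤ) * z := mul_le_mul_of_nonneg_left h3 hM.le
  omega

/-- the starting directions increase -/
theorem hd_a22 (h : HD c M g a b) : StrictMono a := by
  apply strictMono_int_of_lt_succ
  intro k
  have h1 := h.step k
  have h2 := h.le k
  have h3 : 0 < lg (c (g k)) (c (g (k + 1))) := by
    apply lg_pos
    apply hd_ne22 h (by omega)
    have := h.two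
    omega
  linarith

theorem hd_T22 (h : HD c M g a b) (k : ℤ) : a k ∈ AX.T 1 c (g k) :=
  (h.mem k (a k) le_rfl (by linarith [Real.pi_pos])).2 (h.le k)

/-- subfamilies of the touching centres, in cyclic order -/
theorem sub22 (h : HD c M g a b) (m : ℕ) (s : Fin (m + 2) → ℤ) (hs : StrictMono s)
    (hlast : s (Fin.last (m + 1)) < s 0 + M) :
    per (fun i => c (g (s i))) =
      2 * Real.pi - ctour (fun i => c (g (s i))) (List.finRange (m + 2)) := by
  apply ORD m (fun i => c (g (s i))) (fun i => a (s i))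
  · intro i j hij
    by_contra hne
    rcases lt_or_gt_of_ne hne with hlt | hlt
    · have h1 := hs hlt
      have h2 : s j ≤ s (Fin.last (m + 1)) := hs.monotone (Fin.le_last j)
      have h3 : s 0 ≤ s i := hs.monotone (Fin.zero_le i)
      exact hd_ne22 h h1 (by omega) hij
    · have h1 := hs hlt
      have h2 : s i ≤ s (Fin.last (m + 1)) := hs.monotone (Fin.le_last i)
      have h3 : s 0 ≤ s j := hs.monotone (Fin.zero_le j)
      exact hd_ne22 h h1 (by omega) hij.symm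
  · exact (hd_a22 h).comp hs
  · have h1 := hd_a22 h hlast
    rw [h.aper] at h1
    exact h1
  · intro k
    have h1 := hd_T22 h (s k)
    show c (g (s k)) + ((1 : ℝ) : ℂ) * AX.e (a (s k)) ∈ AX.K 1 (fun i => c (g (s i)))
    have h2 : c (g (s k)) + ((1 : ℝ) : ℂ) * AX.e (a (s k)) ∈ AX.K 1 c := h1
    rw [mem_K22] at h2 ⊢
    intro i
    exact h2 _

theorem per3 (h : HD c M g a b) {i j k : ℤ} (hij : i < j) (hjk : j < k) (hk : k < i + M) :
    per (![c (g i), c (g j), c (g k)]) = 2 * Real.pi -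
      (lg (c (g i)) (c (g j)) + lg (c (g j)) (c (g k)) + lg (c (g k)) (c (g i))) := by
  have h1 := sub22 h 1 ![i, j, k] (by
    intro x y hxy
    fin_cases x <;> fin_cases y <;> simp_all <;> omega) (by simpa using hk)
  have h2 : (fun x : Fin 3 => c (g ((![i, j, k] : Fin 3 → ℤ) x))) =
      ![c (g i), c (g j), c (g k)] := by
    funext x
    fin_cases x <;> rfl
  have h3 : ctour ![c (g i), c (g j), c (g k)] (List.finRange 3) =
      lg (c (g i)) (c (g j)) + (lg (c (g j)) (c (g k)) + lg (c (g k)) (c (g i))) := by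
    simp [ctour, List.finRange_succ, List.rotate]
  rw [h2, h3] at h1
  rw [h1]
  ring

theorem per4 (h : HD c M g a b) {i j k l : ℤ} (hij : i < j) (hjk : j < k) (hkl : k < l)
    (hl : l < i + M) :
    per (![c (g i), c (g j), c (g k), c (g l)]) = 2 * Real.pi -
      (lg (c (g i)) (c (g j)) + lg (c (g j)) (c (g k)) + lg (c (g k)) (c (g l)) +
        lg (c (g l)) (c (g i))) := by
  have h1 := sub22 h 2 ![i, j, k, l] (by
    intro x y hxy
    fin_cases x <;> fin_cases y <;> simp_all <;> omega) (by simpa using hl)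
  have h2 : (fun x : Fin 4 => c (g ((![i, j, k, l] : Fin 4 → ℤ) x))) =
      ![c (g i), c (g j), c (g k), c (g l)] := by
    funext x
    fin_cases x <;> rfl
  have h3 : ctour ![c (g i), c (g j), c (g k), c (g l)] (List.finRange 4) =
      lg (c (g i)) (c (g j)) + (lg (c (g j)) (c (g k)) + (lg (c (g k)) (c (g l)) +
        lg (c (g l)) (c (g i)))) := by
    simp [ctour, List.finRange_succ, List.rotate]
  rw [h2, h3] at h1
  rw [h1]
  ring

/-- quadrilateral inequalities -/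
theorem kal22 (h : HD c M g a b) {i j k l : ℤ} (hij : i < j) (hjk : j < k) (hkl : k < l)
    (hl : l < i + M) :
    lg (c (g i)) (c (g j)) + lg (c (g k)) (c (g l)) ≤
      lg (c (g i)) (c (g k)) + lg (c (g j)) (c (g l)) := by
  have hsup : ∀ k' l' : ℤ, AX.Sup 1 (c (g k')) (a k') (c (g l')) := fun k' l' =>
    (axTSUP _ 1 c (g k') (a k') one_pos).1 (hd_T22 h k') (g l')
  have hm := hd_a22 h
  have h1 := axQ 1 (c (g i)) (c (g j)) (c (g k)) (c (g l)) (a i) (a j) (a k) (a l) one_pos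
    (hm hij) (hm hjk) (hm hkl) (by have := hm hl; rw [h.aper] at this; exact this)
    (hd_ne22 h hij (by omega)) (hd_ne22 h (by omega) (by omega)) (hd_ne22 h (by omega) (by omega))
    (hd_ne22 h hjk (by omega)) (hd_ne22 h (by omega) (by omega)) (hd_ne22 h hkl (by omega))
    (hsup _ _) (hsup _ _) (hsup _ _) (hsup _ _) (hsup _ _) (hsup _ _) (hsup _ _) (hsup _ _)
    (hsup _ _) (hsup _ _) (hsup _ _) (hsup _ _)
  unfold lg
  linarith

theorem kal22' (h : HD c M g a b) {i j k l : ℤ} (hij : i < j) (hjk : j < k) (hkl : k < l)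
    (hl : l < i + M) :
    lg (c (g i)) (c (g l)) + lg (c (g j)) (c (g k)) ≤
      lg (c (g i)) (c (g k)) + lg (c (g j)) (c (g l)) := by
  have h1 := kal22 h hjk hkl hl (by omega)
  rw [h.gper] at h1
  have e1 := lg_comm (c (g i)) (c (g l))
  have e2 := lg_comm (c (g i)) (c (g k))
  linarith

/-- crossing diagonals split the weights -/
theorem split22 {A Y X B P : ℂ} {α β γ δ : ℝ} (hα : 0 ≤ α) (hβ : 0 ≤ β) (hγ : 0 ≤ γ)
    (hδ : 0 ≤ δ) (hs : α + β + γ + δ = 1)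
    (hP : P = (α : ℂ) * A + (β : ℂ) * Y + (γ : ℂ) * X + (δ : ℂ) * B)
    (hu : 0 < crs (Y - A) (X - A)) (hv : 0 < crs (X - A) (B - A))
    (h1 : 0 < crs (Y - A) (B - A)) (h2 : 0 < crs (X - Y) (B - Y)) :
    (∃ x y z : ℝ, 0 ≤ x ∧ 0 ≤ y ∧ 0 ≤ z ∧ x + y + z = 1 ∧
      P = (x : ℂ) * A + (y : ℂ) * Y + (z : ℂ) * X) ∨
    (∃ x y z : ℝ, 0 ≤ x ∧ 0 ≤ y ∧ 0 ≤ z ∧ x + y + z = 1 ∧
      P = (x : ℂ) * A + (y : ℂ) * X + (z : ℂ) * B) := by
  obtain ⟨u, hu'⟩ : ∃ u, u = crs (Y - A) (X - A) := ⟨_, rfl⟩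
  obtain ⟨v, hv'⟩ : ∃ v, v = crs (X - A) (B - A) := ⟨_, rfl⟩
  obtain ⟨s, h1'⟩ : ∃ s, s = crs (Y - A) (B - A) := ⟨_, rfl⟩
  obtain ⟨t, h2'⟩ : ∃ t, t = crs (X - Y) (B - Y) := ⟨_, rfl⟩
  rw [← hu'] at hu
  rw [← hv'] at hv
  rw [← h1'] at h1
  rw [← h2'] at h2
  have e1 : u + v = s + t := by
    rw [hu', hv', h1', h2']
    simp only [crs, Complex.mul_im, Complex.conj_re, Complex.conj_im, Complex.sub_re,
      Complex.sub_im]
    ring
  have e2 : (t : ℂ) * A + (s : ℂ) * X = (v : ℂ) * Y + (u : ℂ) * B := by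
    rw [hu', hv', h1', h2']
    apply Complex.ext
    · simp only [crs, Complex.mul_im, Complex.mul_re, Complex.conj_re, Complex.conj_im,
        Complex.sub_re, Complex.sub_im, Complex.add_re, Complex.ofReal_re, Complex.ofReal_im]
      ring
    · simp only [crs, Complex.mul_im, Complex.conj_re, Complex.conj_im,
        Complex.sub_re, Complex.sub_im, Complex.add_im, Complex.ofReal_re, Complex.ofReal_im]
      ring
  rcases le_total (β * u) (δ * v) with hle | hle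
  · right
    refine ⟨α + β / v * t, γ + β / v * s, δ - β / v * u, by positivity, by positivity, ?_, ?_, ?_⟩
    · have : β / v * u = β * u / v := by ring
      rw [this, sub_nonneg, div_le_iff₀ hv]
      exact hle
    · have h3 : β / v * v = β := div_mul_cancel₀ β hv.ne'
      have h4 : α + β / v * t + (γ + β / v * s) + (δ - β / v * u) =
        α + γ + δ + β / v * (s + t - u) := by ring
      rw [h4, ← e1]
      have h5 : β / v * (u + v - u) = β := by rw [add_sub_cancel_left]; exact h3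
      rw [h5]
      linarith
    · have h3 : ((β / v : ℝ) : ℂ) * (v : ℂ) = (β : ℂ) := by
        rw [← Complex.ofReal_mul, div_mul_cancel₀ β hv.ne']
      rw [hP]
      push_cast at h3 ⊢
      linear_combination (-(β : ℂ) / v) * e2 - Y * h3
  · left
    refine ⟨α + δ / u * t, β - δ / u * v, γ + δ / u * s, by positivity, ?_, by positivity, ?_, ?_⟩
    · have : δ / u * v = δ * v / u := by ring
      rw [this, sub_nonneg, div_le_iff₀ hu]
      exact hle
    · have h3 : δ / u * u = δ := div_mul_cancel₀ δ hu.ne'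
      have h4 : α + δ / u * t + (β - δ / u * v) + (γ + δ / u * s) =
        α + β + γ + δ / u * (s + t - v) := by ring
      rw [h4, ← e1]
      have h5 : δ / u * (u + v - v) = δ := by rw [add_sub_cancel_right]; exact h3
      rw [h5]
      linarith
    · have h3 : ((δ / u : ℝ) : ℂ) * (u : ℂ) = (δ : ℂ) := by
        rw [← Complex.ofReal_mul, div_mul_cancel₀ δ hu.ne']
      rw [hP]
      push_cast at h3 ⊢
      linear_combination (-(δ : ℂ) / u) * e2 - B * h3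

/-- weights of a point of the hull of four points -/
theorem hull22 {A Y X B P : ℂ} (h : P ∈ convexHull ℝ ({A, Y, X, B} : Set ℂ)) :
    ∃ α β γ δ : ℝ, 0 ≤ α ∧ 0 ≤ β ∧ 0 ≤ γ ∧ 0 ≤ δ ∧ α + β + γ + δ = 1 ∧
      P = (α : ℂ) * A + (β : ℂ) * Y + (γ : ℂ) * X + (δ : ℂ) * B := by
  rw [convexHull_insert (by simp), convexHull_insert (by simp), convexHull_pair] at h
  rw [mem_convexJoin] at h
  obtain ⟨A', hA', P1, hP1, a1, b1, ha1, hb1, hab1, hP⟩ := h
  rw [Set.mem_singleton_iff] at hA'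
  rw [mem_convexJoin] at hP1
  obtain ⟨Y', hY', P2, hP2, a2, b2, ha2, hb2, hab2, hP1'⟩ := hP1
  rw [Set.mem_singleton_iff] at hY'
  obtain ⟨a3, b3, ha3, hb3, hab3, hP2'⟩ := hP2
  refine ⟨a1, b1 * a2, b1 * b2 * a3, b1 * b2 * b3, ha1, by positivity, by positivity,
    by positivity, ?_, ?_⟩
  · have : a1 + b1 * a2 + b1 * b2 * a3 + b1 * b2 * b3 = a1 + b1 * (a2 + b2 * (a3 + b3)) := by ring
    rw [this, hab3, mul_one, hab2, mul_one, hab1]
  · rw [← hP, ← hP1', ← hP2', hA', hY']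
    simp only [Complex.real_smul]
    push_cast
    ring

theorem dist22 {A Y X P z : ℂ} {x y w : ℝ} (hx : 0 ≤ x) (hy : 0 ≤ y) (hw : 0 ≤ w)
    (hs : x + y + w = 1) (hP : P = (x : ℂ) * A + (y : ℂ) * Y + (w : ℂ) * X)
    (hA : dist z A ≤ 1) (hY : dist z Y ≤ 1) (hX : dist z X ≤ 1) : dist z P ≤ 1 := by
  rw [dist_eq_norm] at *
  have hs' : (x : ℂ) + y + w = 1 := by exact_mod_cast hs
  have h1 : z - P = (x : ℂ) * (z - A) + (y : ℂ) * (z - Y) + (w : ℂ) * (z - X) := by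
    rw [hP]
    linear_combination (-z) * hs'
  rw [h1]
  calc ‖(x : ℂ) * (z - A) + (y : ℂ) * (z - Y) + (w : ℂ) * (z - X)‖
      ≤ ‖(x : ℂ) * (z - A)‖ + ‖(y : ℂ) * (z - Y)‖ + ‖(w : ℂ) * (z - X)‖ := norm_add₃_le
    _ = x * ‖z - A‖ + y * ‖z - Y‖ + w * ‖z - X‖ := by
        rw [norm_mul, norm_mul, norm_mul, Complex.norm_real, Complex.norm_real,
          Complex.norm_real, Real.norm_of_nonneg hx, Real.norm_of_nonneg hy,
          Real.norm_of_nonneg hw]
    _ ≤ x * 1 + y * 1 + w * 1 := by gcongr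
    _ = 1 := by rw [mul_one, mul_one, mul_one, hs]

theorem per_eq22 {m k : ℕ} {c : Fin m → ℂ} {d : Fin k → ℂ}
    (h : ∀ z, (∀ i, dist z (c i) ≤ 1) ↔ ∀ j, dist z (d j) ≤ 1) : per c = per d := by
  have : AX.K 1 c = AX.K 1 d := by
    ext z
    rw [mem_K22, mem_K22]
    exact h z
  unfold per
  rw [this]

theorem per_rng22 {m k : ℕ} {c : Fin m → ℂ} {d : Fin k → ℂ} (h : Set.range c = Set.range d) :
    per c = per d := by
  apply per_eq22
  intro z
  constructor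
  · intro h1 j
    have : d j ∈ Set.range c := by rw [h]; exact ⟨j, rfl⟩
    obtain ⟨i, hi⟩ := this
    rw [← hi]
    exact h1 i
  · intro h1 i
    have : c i ∈ Set.range d := by rw [← h]; exact ⟨i, rfl⟩
    obtain ⟨j, hj⟩ := this
    rw [← hj]
    exact h1 j

/-- a point of the flat triangle can be dropped -/
theorem hubrem22 {P0 P1 P2 P3 : ℂ} {x y w : ℝ} (hx : 0 ≤ x) (hy : 0 ≤ y) (hw : 0 ≤ w)
    (hs : x + y + w = 1) (hP : P0 = (x : ℂ) * P1 + (y : ℂ) * P2 + (w : ℂ) * P3) :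
    per ![P0, P1, P2, P3] = per ![P1, P2, P3] := by
  apply per_eq22
  intro z
  constructor
  · intro h j
    fin_cases j
    · exact h 1
    · exact h 2
    · exact h 3
  · intro h j
    fin_cases j
    · exact dist22 hx hy hw hs hP (h 0) (h 1) (h 2)
    · exact h 0
    · exact h 1
    · exact h 2

/-- the hub and a diagonal of the rim -/
theorem pside22 (hORI : ST_ORI) {g : ℤ → Fin n} {p : Fin n → ℂ} (h : HD p 4 g a b) {P : ℂ}
    (hf : P ∈ convexHull ℝ (Set.range (fun k => p (g k)))) (k : ℤ) :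
    (∃ x y z : ℝ, 0 ≤ x ∧ 0 ≤ y ∧ 0 ≤ z ∧ x + y + z = 1 ∧
      P = (x : ℂ) * p (g k) + (y : ℂ) * p (g (k + 1)) + (z : ℂ) * p (g (k + 2))) ∨
    (∃ x y z : ℝ, 0 ≤ x ∧ 0 ≤ y ∧ 0 ≤ z ∧ x + y + z = 1 ∧
      P = (x : ℂ) * p (g k) + (y : ℂ) * p (g (k + 2)) + (z : ℂ) * p (g (k + 3))) := by
  have hr : Set.range (fun m => p (g m)) ⊆
      ({p (g k), p (g (k + 1)), p (g (k + 2)), p (g (k + 3))} : Set ℂ) := by
    rintro _ ⟨m, rfl⟩
    obtain ⟨r, hr, hr2⟩ := exists_nat (M := 4) (g := fun m => g (k + m)) (by norm_num)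
      (fun m => by
        have := h.gper (k + m)
        simpa [add_assoc] using this) (m - k)
    have e1 : g m = g (k + r) := by
      have e2 : g (k + (m - k)) = g m := by congr 1; ring
      rw [← e2]
      exact hr2.symm
    have e3 : (fun m => p (g m)) m = p (g (k + r)) := by
      show p (g m) = _
      rw [e1]
    rw [e3]
    rcases (by omega : r = 0 ∨ r = 1 ∨ r = 2 ∨ r = 3) with h | h | h | h
    · subst h; left; simp
    · subst h; right; left; simp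
    · subst h; right; right; left; simp
    · subst h; right; right; right; simp
  obtain ⟨α, β, γ, δ, hα, hβ, hγ, hδ, hs, hP⟩ := hull22 (convexHull_mono hr hf)
  have ho := hORI n p 4 g a b h
  exact split22 hα hβ hγ hδ hs hP (ho k (k + 1) (k + 2) (by omega) (by omega) (by push_cast; omega))
    (ho k (k + 2) (k + 3) (by omega) (by omega) (by push_cast; omega))
    (ho k (k + 1) (k + 3) (by omega) (by omega) (by push_cast; omega))
    (ho (k + 1) (k + 2) (k + 3) (by omega) (by omega) (by push_cast; omega))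

/-- the tour of `q` -/
theorem per5q {q : Fin 5 → ℂ} (h : HD q 5 gQ a b) : per q = 2 * Real.pi -
    (lg (q 0) (q 1) + lg (q 1) (q 2) + lg (q 2) (q 3) + lg (q 3) (q 4) + lg (q 4) (q 0)) := by
  have h1 := sub22 h 3 ![0, 1, 2, 3, 4] (by
    intro x y hxy
    fin_cases x <;> fin_cases y <;> simp_all) (by
    show (4 : ℤ) < 0 + (5 : ℕ)
    norm_num)
  have h2 : (fun x : Fin 5 => q (gQ ((![0, 1, 2, 3, 4] : Fin 5 → ℤ) x))) = q := by
    funext x
    fin_cases x <;> rfl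
  have h3 : ctour q (List.finRange 5) =
      lg (q 0) (q 1) + (lg (q 1) (q 2) + (lg (q 2) (q 3) + (lg (q 3) (q 4) +
        lg (q 4) (q 0)))) := by
    simp [ctour, List.finRange_succ, List.rotate]
  rw [h2, h3] at h1
  rw [h1]
  ring

theorem lg_tight {x y z w : ℂ} (h : dist x y = dist z w) : lg x y = lg z w :=
  le_antisymm (lg_mono h.le) (lg_mono h.ge)

/-- all quadrilateral inequalities of `q` -/
theorem kalq22 {q : Fin 5 → ℂ} (h : HD q 5 gQ a b) :
    (lg (q 0) (q 1) + lg (q 2) (q 3) ≤ lg (q 0) (q 2) + lg (q 1) (q 3) ∧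
      lg (q 0) (q 3) + lg (q 1) (q 2) ≤ lg (q 0) (q 2) + lg (q 1) (q 3)) ∧
    (lg (q 0) (q 1) + lg (q 2) (q 4) ≤ lg (q 0) (q 2) + lg (q 1) (q 4) ∧
      lg (q 0) (q 4) + lg (q 1) (q 2) ≤ lg (q 0) (q 2) + lg (q 1) (q 4)) ∧
    (lg (q 0) (q 1) + lg (q 3) (q 4) ≤ lg (q 0) (q 3) + lg (q 1) (q 4) ∧
      lg (q 0) (q 4) + lg (q 1) (q 3) ≤ lg (q 0) (q 3) + lg (q 1) (q 4)) ∧
    (lg (q 0) (q 2) + lg (q 3) (q 4) ≤ lg (q 0) (q 3) + lg (q 2) (q 4) ∧
      lg (q 0) (q 4) + lg (q 2) (q 3) ≤ lg (q 0) (q 3) + lg (q 2) (q 4)) ∧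
    (lg (q 1) (q 2) + lg (q 3) (q 4) ≤ lg (q 1) (q 3) + lg (q 2) (q 4) ∧
      lg (q 1) (q 4) + lg (q 2) (q 3) ≤ lg (q 1) (q 3) + lg (q 2) (q 4)) := by
  have k1 : ∀ i j k l : ℤ, i < j → j < k → k < l → l < i + 5 →
      lg (q (gQ i)) (q (gQ j)) + lg (q (gQ k)) (q (gQ l)) ≤
        lg (q (gQ i)) (q (gQ k)) + lg (q (gQ j)) (q (gQ l)) := fun i j k l h1 h2 h3 h4 =>
    kal22 h h1 h2 h3 (by push_cast; exact h4)
  have k2 : ∀ i j k l : ℤ, i < j → j < k → k < l → l < i + 5 →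
      lg (q (gQ i)) (q (gQ l)) + lg (q (gQ j)) (q (gQ k)) ≤
        lg (q (gQ i)) (q (gQ k)) + lg (q (gQ j)) (q (gQ l)) := fun i j k l h1 h2 h3 h4 =>
    kal22' h h1 h2 h3 (by push_cast; exact h4)
  refine ⟨⟨k1 0 1 2 3 ?_ ?_ ?_ ?_, k2 0 1 2 3 ?_ ?_ ?_ ?_⟩, ⟨k1 0 1 2 4 ?_ ?_ ?_ ?_,
    k2 0 1 2 4 ?_ ?_ ?_ ?_⟩, ⟨k1 0 1 3 4 ?_ ?_ ?_ ?_, k2 0 1 3 4 ?_ ?_ ?_ ?_⟩,
    ⟨k1 0 2 3 4 ?_ ?_ ?_ ?_, k2 0 2 3 4 ?_ ?_ ?_ ?_⟩, ⟨k1 1 2 3 4 ?_ ?_ ?_ ?_,
    k2 1 2 3 4 ?_ ?_ ?_ ?_⟩⟩ <;> norm_num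

/-- subfamilies of `q`, in hull order -/
theorem per3q {q : Fin 5 → ℂ} (h : HD q 5 gQ a b) :
    per ![q 1, q 2, q 3] = 2 * Real.pi - (lg (q 1) (q 2) + lg (q 2) (q 3) + lg (q 3) (q 1)) ∧
    per ![q 1, q 2, q 4] = 2 * Real.pi - (lg (q 1) (q 2) + lg (q 2) (q 4) + lg (q 4) (q 1)) ∧
    per ![q 1, q 3, q 4] = 2 * Real.pi - (lg (q 1) (q 3) + lg (q 3) (q 4) + lg (q 4) (q 1)) ∧
    per ![q 2, q 3, q 4] = 2 * Real.pi - (lg (q 2) (q 3) + lg (q 3) (q 4) + lg (q 4) (q 2)) := by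
  refine ⟨per3 h (i := 1) (j := 2) (k := 3) ?_ ?_ ?_, per3 h (i := 1) (j := 2) (k := 4) ?_ ?_ ?_,
    per3 h (i := 1) (j := 3) (k := 4) ?_ ?_ ?_, per3 h (i := 2) (j := 3) (k := 4) ?_ ?_ ?_⟩ <;>
    norm_num

theorem per4q {q : Fin 5 → ℂ} (h : HD q 5 gQ a b) :
    per ![q 0, q 1, q 2, q 3] = 2 * Real.pi -
      (lg (q 0) (q 1) + lg (q 1) (q 2) + lg (q 2) (q 3) + lg (q 3) (q 0)) ∧
    per ![q 0, q 1, q 2, q 4] = 2 * Real.pi -
      (lg (q 0) (q 1) + lg (q 1) (q 2) + lg (q 2) (q 4) + lg (q 4) (q 0)) ∧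
    per ![q 0, q 1, q 3, q 4] = 2 * Real.pi -
      (lg (q 0) (q 1) + lg (q 1) (q 3) + lg (q 3) (q 4) + lg (q 4) (q 0)) ∧
    per ![q 0, q 2, q 3, q 4] = 2 * Real.pi -
      (lg (q 0) (q 2) + lg (q 2) (q 3) + lg (q 3) (q 4) + lg (q 4) (q 0)) := by
  refine ⟨per4 h (i := 0) (j := 1) (k := 2) (l := 3) ?_ ?_ ?_ ?_,
    per4 h (i := 0) (j := 1) (k := 2) (l := 4) ?_ ?_ ?_ ?_,
    per4 h (i := 0) (j := 1) (k := 3) (l := 4) ?_ ?_ ?_ ?_,
    per4 h (i := 0) (j := 2) (k := 3) (l := 4) ?_ ?_ ?_ ?_⟩ <;> norm_num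

/-- the induction hypotheses for subfamilies -/
theorem al3 {p q : Fin 5 → ℂ} (hA : Alex 3) (hc : Ctr p q) (i j k : Fin 5) :
    per ![p i, p j, p k] ≤ per ![q i, q j, q k] := by
  apply hA
  intro x y
  fin_cases x <;> fin_cases y <;> exact hc _ _

theorem al4 {p q : Fin 5 → ℂ} (hA : Alex 4) (hc : Ctr p q) (i j k l : Fin 5) :
    per ![p i, p j, p k, p l] ≤ per ![q i, q j, q k, q l] := by
  apply hA
  intro x y
  fin_cases x <;> fin_cases y <;> exact hc _ _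

theorem f3 (z A B C : ℂ) : (∀ i, dist z (![A, B, C] i) ≤ 1) ↔
    dist z A ≤ 1 ∧ dist z B ≤ 1 ∧ dist z C ≤ 1 := by
  constructor
  · intro h
    exact ⟨h 0, h 1, h 2⟩
  · rintro ⟨h0, h1, h2⟩ i
    fin_cases i
    · exact h0
    · exact h1
    · exact h2

theorem f4 (z O A B C : ℂ) : (∀ i, dist z (![O, A, B, C] i) ≤ 1) ↔
    dist z O ≤ 1 ∧ dist z A ≤ 1 ∧ dist z B ≤ 1 ∧ dist z C ≤ 1 := by
  constructor
  · intro h
    exact ⟨h 0, h 1, h 2, h 3⟩
  · rintro ⟨h0, h1, h2, h3⟩ i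
    fin_cases i
    · exact h0
    · exact h1
    · exact h2
    · exact h3

theorem perm3 (A B C : ℂ) : per ![A, B, C] = per ![A, C, B] ∧ per ![A, B, C] = per ![B, A, C] ∧
    per ![A, B, C] = per ![B, C, A] ∧ per ![A, B, C] = per ![C, A, B] ∧
    per ![A, B, C] = per ![C, B, A] := by
  refine ⟨per_eq22 fun z => ?_, per_eq22 fun z => ?_, per_eq22 fun z => ?_, per_eq22 fun z => ?_,
    per_eq22 fun z => ?_⟩ <;> (rw [f3, f3]; tauto)

theorem perm4 (O A B C : ℂ) : per ![O, A, B, C] = per ![O, A, C, B] ∧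
    per ![O, A, B, C] = per ![O, B, A, C] ∧ per ![O, A, B, C] = per ![O, B, C, A] ∧
    per ![O, A, B, C] = per ![O, C, A, B] ∧ per ![O, A, B, C] = per ![O, C, B, A] := by
  refine ⟨per_eq22 fun z => ?_, per_eq22 fun z => ?_, per_eq22 fun z => ?_, per_eq22 fun z => ?_,
    per_eq22 fun z => ?_⟩ <;> (rw [f4, f4]; tauto)

/-- the whole family `p` has the same intersection as its rim -/
theorem perp22 {p : Fin 5 → ℂ} {i j k : Fin 5} {x y w : ℝ} (hx : 0 ≤ x) (hy : 0 ≤ y)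
    (hw : 0 ≤ w) (hs : x + y + w = 1) (hi : i ≠ 0) (hj : j ≠ 0) (hk : k ≠ 0)
    (hP : p 0 = (x : ℂ) * p i + (y : ℂ) * p j + (w : ℂ) * p k) :
    per p = per ![p 1, p 2, p 3, p 4] := by
  apply per_eq22
  intro z
  rw [f4]
  constructor
  · intro h
    exact ⟨h 1, h 2, h 3, h 4⟩
  · rintro ⟨h1, h2, h3, h4⟩
    have hr : ∀ m : Fin 5, m ≠ 0 → dist z (p m) ≤ 1 := by
      intro m hm
      fin_cases m
      · exact absurd rfl hm
      · exact h1
      · exact h2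
      · exact h3
      · exact h4
    intro m
    by_cases hm : m = 0
    · rw [hm]
      exact dist22 hx hy hw hs hP (hr i hi) (hr j hj) (hr k hk)
    · exact hr m hm

theorem tight22 {x y z w : ℂ} (h1 : dist z w ≤ dist x y) (h2 : ¬ dist z w < dist x y) :
    lg x y = lg z w :=
  lg_tight (le_antisymm (not_lt.1 h2) h1)

end H22

open H22

/-- row G1C -/
theorem G1C (hORI : ST_ORI) (hFLAT : ST_FLAT) : ST_G1C := by
  intro hA4 hA3 p q ap bp aq bq hM hp hq hfull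
  have hf := hFLAT 5 p q 4 gC ap bp gQ aq bq hM hp hq hfull 0
  have hc := hM.ctr
  have hpos := hM.pos
  obtain ⟨⟨k1, k2⟩, ⟨k3, k4⟩, ⟨k5, k6⟩, ⟨k7, k8⟩, ⟨k9, k10⟩⟩ := kalq22 hq
  obtain ⟨q1, q2, q3, q4⟩ := per3q hq
  obtain ⟨r1, r2, r3, r4⟩ := per4q hq
  have hq5 := per5q hq
  have c01 := lg_comm (q 0) (q 1)
  have c02 := lg_comm (q 0) (q 2)
  have c03 := lg_comm (q 0) (q 3)
  have c04 := lg_comm (q 0) (q 4)
  have c12 := lg_comm (q 1) (q 2)
  have c13 := lg_comm (q 1) (q 3)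
  have c14 := lg_comm (q 1) (q 4)
  have c23 := lg_comm (q 2) (q 3)
  have c24 := lg_comm (q 2) (q 4)
  have c34 := lg_comm (q 3) (q 4)
  have d12 := lg_comm (p 1) (p 2)
  have d13 := lg_comm (p 1) (p 3)
  have d14 := lg_comm (p 1) (p 4)
  have d23 := lg_comm (p 2) (p 3)
  have d24 := lg_comm (p 2) (p 4)
  have d34 := lg_comm (p 3) (p 4)
  -- subfamilies of `p`: positions 0, 1, 2, 3 are 1, 3, 2, 4
  have s4 : per ![p 1, p 3, p 2, p 4] = 2 * Real.pi -
      (lg (p 1) (p 3) + lg (p 3) (p 2) + lg (p 2) (p 4) + lg (p 4) (p 1)) :=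
    per4 hp (i := 0) (j := 1) (k := 2) (l := 3) (by norm_num) (by norm_num) (by norm_num)
      (by norm_num)
  have s132 : per ![p 1, p 3, p 2] = 2 * Real.pi -
      (lg (p 1) (p 3) + lg (p 3) (p 2) + lg (p 2) (p 1)) :=
    per3 hp (i := 0) (j := 1) (k := 2) (by norm_num) (by norm_num) (by norm_num)
  have s124 : per ![p 1, p 2, p 4] = 2 * Real.pi -
      (lg (p 1) (p 2) + lg (p 2) (p 4) + lg (p 4) (p 1)) :=
    per3 hp (i := 0) (j := 2) (k := 3) (by norm_num) (by norm_num) (by norm_num)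
  have s134 : per ![p 1, p 3, p 4] = 2 * Real.pi -
      (lg (p 1) (p 3) + lg (p 3) (p 4) + lg (p 4) (p 1)) :=
    per3 hp (i := 0) (j := 1) (k := 3) (by norm_num) (by norm_num) (by norm_num)
  have s324 : per ![p 3, p 2, p 4] = 2 * Real.pi -
      (lg (p 3) (p 2) + lg (p 2) (p 4) + lg (p 4) (p 3)) :=
    per3 hp (i := 1) (j := 2) (k := 3) (by norm_num) (by norm_num) (by norm_num)
  have e4 : per ![p 1, p 3, p 2, p 4] = per ![p 1, p 2, p 3, p 4] := by
    apply per_eq22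
    intro z
    rw [f4, f4]
    constructor <;> (rintro ⟨h0, h1, h2, h3⟩; refine ⟨?_, ?_, ?_, ?_⟩ <;> assumption)
  constructor
  · by_contra hno
    have ht := tight22 (hc 1 2) hno
    rcases pside22 hORI hp hf 0 with ⟨x, y, w, hx, hy, hw, hs, hP⟩ | ⟨x, y, w, hx, hy, hw, hs, hP⟩
    · have hP' : p 0 = (x : ℂ) * p 1 + (y : ℂ) * p 3 + (w : ℂ) * p 2 := hP
      have e5 := perp22 hx hy hw hs (by decide) (by decide) (by decide) hP'
      have e6 := hubrem22 hx hy hw hs hP'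
      have e7 := al4 hA4 hc 0 1 2 3
      have e8 := al3 hA3 hc 1 2 4
      have e9 := (perm4 (p 0) (p 1) (p 3) (p 2)).1
      linarith
    · have hP' : p 0 = (x : ℂ) * p 1 + (y : ℂ) * p 2 + (w : ℂ) * p 4 := hP
      have e5 := perp22 hx hy hw hs (by decide) (by decide) (by decide) hP'
      have e6 := hubrem22 hx hy hw hs hP'
      have e7 := al4 hA4 hc 0 1 2 4
      have e8 := al3 hA3 hc 1 2 3
      have e9 := (perm3 (p 1) (p 3) (p 2)).1
      linarith
  · by_contra hno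
    have ht := tight22 (hc 3 4) hno
    rcases pside22 hORI hp hf 1 with ⟨x, y, w, hx, hy, hw, hs, hP⟩ | ⟨x, y, w, hx, hy, hw, hs, hP⟩
    · have hP' : p 0 = (x : ℂ) * p 3 + (y : ℂ) * p 2 + (w : ℂ) * p 4 := hP
      have e5 := perp22 hx hy hw hs (by decide) (by decide) (by decide) hP'
      have e6 := hubrem22 hx hy hw hs hP'
      have e7 := al4 hA4 hc 0 2 3 4
      have e8 := al3 hA3 hc 1 3 4
      have e9 := (perm4 (p 0) (p 3) (p 2) (p 4)).2.1
      linarith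
    · have hP' : p 0 = (x : ℂ) * p 3 + (y : ℂ) * p 4 + (w : ℂ) * p 1 := hP
      have e5 := perp22 hx hy hw hs (by decide) (by decide) (by decide) hP'
      have e6 := hubrem22 hx hy hw hs hP'
      have e7 := al4 hA4 hc 0 1 3 4
      have e8 := al3 hA3 hc 2 3 4
      have e9 := (perm4 (p 0) (p 3) (p 4) (p 1)).2.2.2.1
      have e10 := (perm3 (p 3) (p 4) (p 1)).2.2.2.1
      have e11 := (perm3 (p 3) (p 2) (p 4)).2.1
      linarith

/-- row G1B -/
theorem G1B (hORI : ST_ORI) (hFLAT : ST_FLAT) : ST_G1B := by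
  intro hA4 hA3 p q ap bp aq bq hM hp hq hfull
  have hf := hFLAT 5 p q 4 gB ap bp gQ aq bq hM hp hq hfull 0
  have hc := hM.ctr
  have hpos := hM.pos
  obtain ⟨⟨k1, k2⟩, ⟨k3, k4⟩, ⟨k5, k6⟩, ⟨k7, k8⟩, ⟨k9, k10⟩⟩ := kalq22 hq
  obtain ⟨q1, q2, q3, q4⟩ := per3q hq
  obtain ⟨r1, r2, r3, r4⟩ := per4q hq
  have hq5 := per5q hq
  have c01 := lg_comm (q 0) (q 1)
  have c02 := lg_comm (q 0) (q 2)
  have c03 := lg_comm (q 0) (q 3)
  have c04 := lg_comm (q 0) (q 4)
  have c12 := lg_comm (q 1) (q 2)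
  have c13 := lg_comm (q 1) (q 3)
  have c14 := lg_comm (q 1) (q 4)
  have c23 := lg_comm (q 2) (q 3)
  have c24 := lg_comm (q 2) (q 4)
  have c34 := lg_comm (q 3) (q 4)
  have d12 := lg_comm (p 1) (p 2)
  have d13 := lg_comm (p 1) (p 3)
  have d14 := lg_comm (p 1) (p 4)
  have d23 := lg_comm (p 2) (p 3)
  have d24 := lg_comm (p 2) (p 4)
  have d34 := lg_comm (p 3) (p 4)
  -- subfamilies of `p`: positions 0, 1, 2, 3 are 1, 2, 4, 3
  have s4 : per ![p 1, p 2, p 4, p 3] = 2 * Real.pi -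
      (lg (p 1) (p 2) + lg (p 2) (p 4) + lg (p 4) (p 3) + lg (p 3) (p 1)) :=
    per4 hp (i := 0) (j := 1) (k := 2) (l := 3) (by norm_num) (by norm_num) (by norm_num)
      (by norm_num)
  have s124 : per ![p 1, p 2, p 4] = 2 * Real.pi -
      (lg (p 1) (p 2) + lg (p 2) (p 4) + lg (p 4) (p 1)) :=
    per3 hp (i := 0) (j := 1) (k := 2) (by norm_num) (by norm_num) (by norm_num)
  have s143 : per ![p 1, p 4, p 3] = 2 * Real.pi -
      (lg (p 1) (p 4) + lg (p 4) (p 3) + lg (p 3) (p 1)) :=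
    per3 hp (i := 0) (j := 2) (k := 3) (by norm_num) (by norm_num) (by norm_num)
  have s123 : per ![p 1, p 2, p 3] = 2 * Real.pi -
      (lg (p 1) (p 2) + lg (p 2) (p 3) + lg (p 3) (p 1)) :=
    per3 hp (i := 0) (j := 1) (k := 3) (by norm_num) (by norm_num) (by norm_num)
  have s243 : per ![p 2, p 4, p 3] = 2 * Real.pi -
      (lg (p 2) (p 4) + lg (p 4) (p 3) + lg (p 3) (p 2)) :=
    per3 hp (i := 1) (j := 2) (k := 3) (by norm_num) (by norm_num) (by norm_num)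
  have e4 : per ![p 1, p 2, p 4, p 3] = per ![p 1, p 2, p 3, p 4] := by
    apply per_eq22
    intro z
    rw [f4, f4]
    constructor <;> (rintro ⟨h0, h1, h2, h3⟩; refine ⟨?_, ?_, ?_, ?_⟩ <;> assumption)
  constructor
  · by_contra hno
    have ht := tight22 (hc 1 4) hno
    rcases pside22 hORI hp hf 0 with ⟨x, y, w, hx, hy, hw, hs, hP⟩ | ⟨x, y, w, hx, hy, hw, hs, hP⟩
    · have hP' : p 0 = (x : ℂ) * p 1 + (y : ℂ) * p 2 + (w : ℂ) * p 4 := hP
      have e5 := perp22 hx hy hw hs (by decide) (by decide) (by decide) hP'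
      have e6 := hubrem22 hx hy hw hs hP'
      have e7 := al4 hA4 hc 0 1 2 4
      have e8 := al3 hA3 hc 1 3 4
      have e9 := (perm3 (p 1) (p 4) (p 3)).1
      linarith
    · have hP' : p 0 = (x : ℂ) * p 1 + (y : ℂ) * p 4 + (w : ℂ) * p 3 := hP
      have e5 := perp22 hx hy hw hs (by decide) (by decide) (by decide) hP'
      have e6 := hubrem22 hx hy hw hs hP'
      have e7 := al4 hA4 hc 0 1 3 4
      have e8 := al3 hA3 hc 1 2 4
      have e9 := (perm4 (p 0) (p 1) (p 4) (p 3)).1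
      linarith
  · by_contra hno
    have ht := tight22 (hc 2 3) hno
    rcases pside22 hORI hp hf 1 with ⟨x, y, w, hx, hy, hw, hs, hP⟩ | ⟨x, y, w, hx, hy, hw, hs, hP⟩
    · have hP' : p 0 = (x : ℂ) * p 2 + (y : ℂ) * p 4 + (w : ℂ) * p 3 := hP
      have e5 := perp22 hx hy hw hs (by decide) (by decide) (by decide) hP'
      have e6 := hubrem22 hx hy hw hs hP'
      have e7 := al4 hA4 hc 0 2 3 4
      have e8 := al3 hA3 hc 1 2 3
      have e9 := (perm4 (p 0) (p 2) (p 4) (p 3)).1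
      linarith
    · have hP' : p 0 = (x : ℂ) * p 2 + (y : ℂ) * p 3 + (w : ℂ) * p 1 := hP
      have e5 := perp22 hx hy hw hs (by decide) (by decide) (by decide) hP'
      have e6 := hubrem22 hx hy hw hs hP'
      have e7 := al4 hA4 hc 0 1 2 3
      have e8 := al3 hA3 hc 2 3 4
      have e9 := (perm4 (p 0) (p 2) (p 3) (p 1)).2.2.2.1
      have e10 := (perm3 (p 2) (p 3) (p 1)).2.2.2.1
      have e11 := (perm3 (p 2) (p 4) (p 3)).1
      linarith

end E5
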