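import Pool.Agent.Helper29.E5.ORI
import Pool.Agent.Helper22.E5.G1

/-!
MP_efd95c_co, contractions of at most five disks: the forces at a vertex of a full family are in
strictly convex position (lemma V3).
-/

set_option autoImplicit false

open scoped MeasureTheory ENNReal Topology
open Complex

noncomputable section

namespace E5
namespace H22

theorem le_of_sq_le_sq22 {x y : ℝ} (hy : 0 ≤ y) (h : x ^ 2 ≤ y ^ 2) : x ≤ y := by
  by_contra hn
  push Not at hn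
  nlinarith

theorem v3_norm {m s x1 y1 r1 x3 y3 r3 F1 F3 al be F2 : ℝ} (hm : 0 ≤ m) (hF1 : 0 ≤ F1)
    (hF3 : 0 ≤ F3) (hal : 0 ≤ al) (hbe : 0 ≤ be) (ht : 1 ≤ al + be)
    (e1 : F1 ^ 2 = m * (x1 ^ 2 + y1 ^ 2) + r1 ^ 2 + s ^ 2)
    (e3 : F3 ^ 2 = m * (x3 ^ 2 + y3 ^ 2) + r3 ^ 2 + s ^ 2)
    (e2 : F2 ^ 2 = m * ((al * x1 + be * x3) ^ 2 + (al * y1 + be * y3) ^ 2) +
      (al * r1 + be * r3) ^ 2 + s ^ 2) : F2 ≤ al * F1 + be * F3 := by
  obtain ⟨B, hB⟩ : ∃ B, B = m * (x1 * x3 + y1 * y3) + r1 * r3 + s ^ 2 := ⟨_, rfl⟩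
  have h1 : B ≤ F1 * F3 := by
    apply le_of_sq_le_sq22 (mul_nonneg hF1 hF3)
    rw [mul_pow, e1, e3, hB]
    have : (m * (x1 ^ 2 + y1 ^ 2) + r1 ^ 2 + s ^ 2) * (m * (x3 ^ 2 + y3 ^ 2) + r3 ^ 2 + s ^ 2) -
        (m * (x1 * x3 + y1 * y3) + r1 * r3 + s ^ 2) ^ 2 =
        m ^ 2 * (x1 * y3 - x3 * y1) ^ 2 + m * (x1 * r3 - x3 * r1) ^ 2 +
        m * (y1 * r3 - y3 * r1) ^ 2 + m * s ^ 2 * (x1 - x3) ^ 2 + m * s ^ 2 * (y1 - y3) ^ 2 +
        s ^ 2 * (r1 - r3) ^ 2 := by ring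
    have h2 : 0 ≤ m ^ 2 * (x1 * y3 - x3 * y1) ^ 2 + m * (x1 * r3 - x3 * r1) ^ 2 +
        m * (y1 * r3 - y3 * r1) ^ 2 + m * s ^ 2 * (x1 - x3) ^ 2 + m * s ^ 2 * (y1 - y3) ^ 2 +
        s ^ 2 * (r1 - r3) ^ 2 := by positivity
    linarith
  apply le_of_sq_le_sq22 (by positivity)
  have h3 : (al * F1 + be * F3) ^ 2 - F2 ^ 2 =
      2 * (al * be) * (F1 * F3 - B) + s ^ 2 * ((al + be) ^ 2 - 1) := by
    rw [e2, hB]
    linear_combination al ^ 2 * e1 + be ^ 2 * e3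
  have h4 : 0 ≤ 2 * (al * be) * (F1 * F3 - B) :=
    mul_nonneg (by positivity) (by linarith)
  have h5 : 0 ≤ s ^ 2 * ((al + be) ^ 2 - 1) := mul_nonneg (sq_nonneg s) (by nlinarith)
  linarith

/-- `|z| cos (half arc)` -/
def fn (z : ℂ) : ℝ := ‖z‖ * Real.sqrt (4 - ‖z‖ ^ 2) / 2

theorem nsq22 (z : ℂ) : ‖z‖ ^ 2 = z.re ^ 2 + z.im ^ 2 := by
  rw [Complex.sq_norm, Complex.normSq_apply]
  ring

theorem fn_nonneg22 (z : ℂ) : 0 ≤ fn z := by unfold fn; positivity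

theorem fn_pos22 {z : ℂ} (h0 : z ≠ 0) (h : ‖z‖ < 2) : 0 < fn z := by
  unfold fn
  have h1 : 0 < ‖z‖ := norm_pos_iff.2 h0
  have h2 : 0 < 4 - ‖z‖ ^ 2 := by nlinarith
  have h3 := Real.sqrt_pos.2 h2
  positivity

theorem fn_sq22 {z : ℂ} (h : ‖z‖ ≤ 2) :
    fn z ^ 2 = (z.re ^ 2 + z.im ^ 2) - (z.re ^ 2 + z.im ^ 2) ^ 2 / 4 := by
  have h0 := norm_nonneg z
  have h1 : 0 ≤ 4 - ‖z‖ ^ 2 := by nlinarith
  unfold fn
  rw [div_pow, mul_pow, Real.sq_sqrt h1, nsq22]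
  ring

/-- points of a unit circle which contains the origin inside -/
theorem v3_circ {c z : ℂ} (hc : ‖c‖ < 1) (h : ‖z - c‖ = 1) :
    ‖z‖ < 2 ∧ fn z ^ 2 = (1 - (c.re ^ 2 + c.im ^ 2)) / 2 * (z.re ^ 2 + z.im ^ 2) +
      (c.re * z.im - c.im * z.re) ^ 2 + ((1 - (c.re ^ 2 + c.im ^ 2)) / 2) ^ 2 := by
  have h1 : ‖z‖ < 2 := by
    have h2 : ‖z‖ ≤ ‖z - c‖ + ‖c‖ := by
      have := norm_add_le (z - c) c
      rwa [sub_add_cancel] at this
    linarith
  refine ⟨h1, ?_⟩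
  rw [fn_sq22 h1.le]
  have h3 : (z.re - c.re) ^ 2 + (z.im - c.im) ^ 2 = 1 := by
    have h4 := nsq22 (z - c)
    rw [h, Complex.sub_re, Complex.sub_im] at h4
    linarith
  obtain ⟨x, hx⟩ : ∃ x, x = z.re := ⟨_, rfl⟩
  obtain ⟨y, hy⟩ : ∃ y, y = z.im := ⟨_, rfl⟩
  obtain ⟨u, hu⟩ : ∃ u, u = c.re := ⟨_, rfl⟩
  obtain ⟨v, hv⟩ : ∃ v, v = c.im := ⟨_, rfl⟩
  rw [← hx, ← hy, ← hu, ← hv] at h3 ⊢
  have h5 : u * x + v * y = (x ^ 2 + y ^ 2 - (1 - (u ^ 2 + v ^ 2))) / 2 := by linarith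
  have h6 : (u * y - v * x) ^ 2 = (u ^ 2 + v ^ 2) * (x ^ 2 + y ^ 2) - (u * x + v * y) ^ 2 := by
    ring
  rw [h6, h5]
  ring

theorem v3_core {c z1 z2 z3 : ℂ} {al be : ℝ} (hc : ‖c‖ < 1) (h1 : ‖z1 - c‖ = 1)
    (h3 : ‖z3 - c‖ = 1) (h2 : 1 < ‖z2 - c‖) (hz2 : ‖z2‖ < 2) (hal : 0 ≤ al) (hbe : 0 ≤ be)
    (he : z2 = (al : ℂ) * z1 + (be : ℂ) * z3) : fn z2 < al * fn z1 + be * fn z3 := by
  have hcont : Continuous (fun t : ℝ => ‖(t : ℂ) * z2 - c‖) := by fun_prop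
  obtain ⟨t, ht, ht1⟩ := intermediate_value_Icc (zero_le_one' ℝ) hcont.continuousOn
    (show (1 : ℝ) ∈ Set.Icc ‖((0 : ℝ) : ℂ) * z2 - c‖ ‖((1 : ℝ) : ℂ) * z2 - c‖ from by
      constructor
      · rw [Complex.ofReal_zero, zero_mul, zero_sub, norm_neg]; exact hc.le
      · rw [Complex.ofReal_one, one_mul]; exact h2.le)
  have ht1' : ‖(t : ℂ) * z2 - c‖ = 1 := ht1
  have ht0 : 0 < t := by
    rcases ht.1.lt_or_eq with h | h
    · exact h
    · rw [← h, Complex.ofReal_zero, zero_mul, zero_sub, norm_neg] at ht1'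
      linarith
  have htl : t < 1 := by
    rcases ht.2.lt_or_eq with h | h
    · exact h
    · rw [h, Complex.ofReal_one, one_mul] at ht1'
      linarith
  have hτ : 1 ≤ t * al + t * be := by
    by_contra hn
    push Not at hn
    have e1 : (t : ℂ) * z2 - c = ((t * al : ℝ) : ℂ) * (z1 - c) + ((t * be : ℝ) : ℂ) * (z3 - c) +
        ((t * al + t * be - 1 : ℝ) : ℂ) * c := by
      rw [he]
      push_cast
      ring
    have e2 : ‖(t : ℂ) * z2 - c‖ ≤ t * al * 1 + t * be * 1 + (1 - (t * al + t * be)) * ‖c‖ := by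
      rw [e1]
      refine (norm_add₃_le).trans ?_
      rw [norm_mul, norm_mul, norm_mul, Complex.norm_real, Complex.norm_real, Complex.norm_real,
        h1, h3, Real.norm_of_nonneg (by positivity), Real.norm_of_nonneg (by positivity),
        Real.norm_of_nonpos (by linarith)]
      linarith
    rw [ht1'] at e2
    nlinarith [norm_nonneg c]
  obtain ⟨hn1, e1⟩ := v3_circ hc h1
  obtain ⟨hn3, e3⟩ := v3_circ hc h3
  obtain ⟨hnt, et⟩ := v3_circ hc ht1'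
  have k1 : fn ((t : ℂ) * z2) ≤ t * al * fn z1 + t * be * fn z3 := by
    refine v3_norm (m := (1 - (c.re ^ 2 + c.im ^ 2)) / 2) (s := (1 - (c.re ^ 2 + c.im ^ 2)) / 2)
      ?_ (fn_nonneg22 _) (fn_nonneg22 _) (by positivity) (by positivity) hτ e1 e3 ?_
    · have := nsq22 c
      nlinarith [norm_nonneg c]
    · rw [et, he]
      simp only [Complex.add_re, Complex.add_im, Complex.mul_re, Complex.mul_im,
        Complex.ofReal_re, Complex.ofReal_im]
      ring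
  have k2 : t * fn z2 < fn ((t : ℂ) * z2) := by
    by_contra hn
    push Not at hn
    have hz0 : z2 ≠ 0 := by
      rintro rfl
      rw [zero_sub, norm_neg] at h2
      linarith
    have e4 : fn ((t : ℂ) * z2) ^ 2 ≤ (t * fn z2) ^ 2 :=
      pow_le_pow_left₀ (fn_nonneg22 _) hn 2
    rw [mul_pow, fn_sq22 hnt.le, fn_sq22 hz2.le] at e4
    simp only [Complex.mul_re, Complex.mul_im, Complex.ofReal_re, Complex.ofReal_im, zero_mul,
      sub_zero, add_zero] at e4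
    have e5 : 0 < z2.re ^ 2 + z2.im ^ 2 := by
      rw [← nsq22]
      exact pow_pos (norm_pos_iff.2 hz0) 2
    have e6 : (t * z2.re) ^ 2 + (t * z2.im) ^ 2 = t ^ 2 * (z2.re ^ 2 + z2.im ^ 2) := by ring
    rw [e6] at e4
    have e7 : t ^ 2 < 1 := by nlinarith
    have e8 : 0 < t ^ 2 * (1 - t ^ 2) * (z2.re ^ 2 + z2.im ^ 2) ^ 2 := by
      have : 0 < 1 - t ^ 2 := by linarith
      positivity
    nlinarith
  have k3 : t * fn z2 < t * (al * fn z1 + be * fn z3) := by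
    calc t * fn z2 < fn ((t : ℂ) * z2) := k2
      _ ≤ t * al * fn z1 + t * be * fn z3 := k1
      _ = t * (al * fn z1 + be * fn z3) := by ring
  exact lt_of_mul_lt_mul_left k3 ht0.le

/-- scalar product -/
def dt (u v : ℂ) : ℝ := u.re * v.re + u.im * v.im

theorem norm_sub_sq22 (u v : ℂ) : ‖u - v‖ ^ 2 = ‖u‖ ^ 2 - 2 * dt u v + ‖v‖ ^ 2 := by
  rw [nsq22, nsq22, nsq22, dt, Complex.sub_re, Complex.sub_im]
  ring

theorem dt_lin22 (u f g : ℂ) (x y : ℝ) :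
    dt u ((x : ℂ) * f + (y : ℂ) * g) = x * dt u f + y * dt u g := by
  simp only [dt, Complex.add_re, Complex.add_im, Complex.mul_re, Complex.mul_im,
    Complex.ofReal_re, Complex.ofReal_im]
  ring

theorem norm_lin22 (f g : ℂ) (x y : ℝ) : ‖(x : ℂ) * f + (y : ℂ) * g‖ ^ 2 =
    x ^ 2 * ‖f‖ ^ 2 + 2 * x * y * dt f g + y ^ 2 * ‖g‖ ^ 2 := by
  rw [nsq22, nsq22, nsq22, dt]
  simp only [Complex.add_re, Complex.add_im, Complex.mul_re, Complex.mul_im,
    Complex.ofReal_re, Complex.ofReal_im]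
  ring

theorem dt_le22 {f g : ℂ} (hf : ‖f‖ = 1) (hg : ‖g‖ = 1) : dt f g ≤ 1 := by
  have h1 := nsq22 f
  have h2 := nsq22 g
  rw [hf] at h1
  rw [hg] at h2
  unfold dt
  nlinarith [sq_nonneg (f.re - g.re), sq_nonneg (f.im - g.im)]

theorem sq_le_one22 {x : ℝ} (h0 : 0 ≤ x) (h : x ≤ 1) : x ^ 2 ≤ 1 := by nlinarith

/-- the corner is inside of the disk on the near side -/
theorem v3_in {f1 f3 u1 u3 g : ℂ} {x y : ℝ} (hf1 : ‖f1‖ = 1) (hf3 : ‖f3‖ = 1) (hu1 : u1 ≠ 0)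
    (hu3 : u3 ≠ 0) (h11 : ‖u1 - f1‖ = 1) (h13 : ‖u1 - f3‖ ≤ 1) (h1g : ‖u1 - g‖ ≤ 1)
    (h33 : ‖u3 - f3‖ = 1) (h31 : ‖u3 - f1‖ ≤ 1) (h3g : ‖u3 - g‖ ≤ 1)
    (hg : g = (x : ℂ) * f1 + (y : ℂ) * f3) (hxy : x + y < 1) : ‖g‖ < 1 := by
  by_contra hn
  push Not at hn
  have a1 : 0 < ‖u1‖ ^ 2 := pow_pos (norm_pos_iff.2 hu1) 2
  have a3 : 0 < ‖u3‖ ^ 2 := pow_pos (norm_pos_iff.2 hu3) 2
  have hg2 : 1 ≤ ‖g‖ ^ 2 := by nlinarith
  have b11 := norm_sub_sq22 u1 f1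
  have b13 := norm_sub_sq22 u1 f3
  have b1g := norm_sub_sq22 u1 g
  have b33 := norm_sub_sq22 u3 f3
  have b31 := norm_sub_sq22 u3 f1
  have b3g := norm_sub_sq22 u3 g
  have c13 := sq_le_one22 (norm_nonneg _) h13
  have c31 := sq_le_one22 (norm_nonneg _) h31
  have c1g := sq_le_one22 (norm_nonneg _) h1g
  have c3g := sq_le_one22 (norm_nonneg _) h3g
  rw [h11, hf1] at b11
  rw [h33, hf3] at b33
  rw [hf3] at b13
  rw [hf1] at b31
  have d1 : dt u1 g = x * dt u1 f1 + y * dt u1 f3 := by rw [hg, dt_lin22]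
  have d3 : dt u3 g = x * dt u3 f1 + y * dt u3 f3 := by rw [hg, dt_lin22]
  have hy : 0 < y := by
    by_contra hy
    push Not at hy
    have e1 : ‖u1‖ ^ 2 ≤ 2 * dt u1 f3 := by linarith
    have e2 : ‖u1‖ ^ 2 = 2 * dt u1 f1 := by linarith
    have e3 : ‖u1‖ ^ 2 ≤ 2 * dt u1 g := by linarith
    rw [d1] at e3
    nlinarith
  have hx : 0 < x := by
    by_contra hx
    push Not at hx
    have e1 : ‖u3‖ ^ 2 ≤ 2 * dt u3 f1 := by linarith
    have e2 : ‖u3‖ ^ 2 = 2 * dt u3 f3 := by linarith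
    have e3 : ‖u3‖ ^ 2 ≤ 2 * dt u3 g := by linarith
    rw [d3] at e3
    nlinarith
  have h1 : ‖g‖ ≤ x + y := by
    rw [hg]
    refine (norm_add_le _ _).trans ?_
    rw [norm_mul, norm_mul, Complex.norm_real, Complex.norm_real, hf1, hf3,
      Real.norm_of_nonneg hx.le, Real.norm_of_nonneg hy.le]
    linarith
  linarith

/-- the corner is outside of the disk on the far side -/
theorem v3_out {f1 f3 u v : ℂ} {x y : ℝ} (hf1 : ‖f1‖ = 1) (hf3 : ‖f3‖ = 1) (hu : u ≠ 0)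
    (h1 : ‖u - f1‖ ≤ 1) (h3 : ‖u - f3‖ ≤ 1) (hv : ‖u - v‖ = 1)
    (he : v = (x : ℂ) * f1 + (y : ℂ) * f3) (hxy : 1 < x + y) : 1 < ‖v‖ := by
  by_contra hn
  push Not at hn
  have hv2 := sq_le_one22 (norm_nonneg _) hn
  have hd := dt_le22 hf1 hf3
  have hv3 : ‖v‖ ^ 2 = x ^ 2 + 2 * x * y * dt f1 f3 + y ^ 2 := by
    rw [he, norm_lin22, hf1, hf3]
    ring
  have hx : 0 ≤ x := by
    by_contra hx
    push Not at hx
    have : 0 < y := by linarith
    nlinarith [mul_nonneg (mul_nonneg (neg_nonneg.2 hx.le) this.le) (sub_nonneg.2 hd)]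
  have hy : 0 ≤ y := by
    by_contra hy
    push Not at hy
    have : 0 < x := by linarith
    nlinarith [mul_nonneg (mul_nonneg (neg_nonneg.2 hy.le) this.le) (sub_nonneg.2 hd)]
  have a1 : 0 < ‖u‖ ^ 2 := pow_pos (norm_pos_iff.2 hu) 2
  have b1 := norm_sub_sq22 u f1
  have b3 := norm_sub_sq22 u f3
  have bv := norm_sub_sq22 u v
  have c1 := sq_le_one22 (norm_nonneg _) h1
  have c3 := sq_le_one22 (norm_nonneg _) h3
  rw [hf1] at b1
  rw [hf3] at b3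
  rw [hv] at bv
  have dv : dt u v = x * dt u f1 + y * dt u f3 := by rw [he, dt_lin22]
  rw [dv] at bv
  have e1 : ‖u‖ ^ 2 ≤ 2 * dt u f1 := by linarith
  have e3 : ‖u‖ ^ 2 ≤ 2 * dt u f3 := by linarith
  nlinarith [mul_le_mul_of_nonneg_left e1 hx, mul_le_mul_of_nonneg_left e3 hy]

/-- the corner on the left side of two points -/
theorem v3_corner {z1 z3 : ℂ} (hne : z1 ≠ z3) (h2 : dist z1 z3 < 2) :
    ∃ w : ℂ, ‖z1 - w‖ = 1 ∧ ‖z3 - w‖ = 1 ∧ 0 < crs (z1 - w) (z3 - w) := by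
  obtain ⟨N, hN⟩ : ∃ N, N = z3 - z1 := ⟨_, rfl⟩
  have hN0 : 0 < ‖N‖ := by
    rw [norm_pos_iff, hN, sub_ne_zero]
    exact hne.symm
  have hN2 : ‖N‖ < 2 := by
    rw [dist_comm, dist_eq_norm, ← hN] at h2
    exact h2
  have h4 : 0 < 1 - ‖N‖ ^ 2 / 4 := by nlinarith
  obtain ⟨k, hk⟩ : ∃ k, k = Real.sqrt (1 - ‖N‖ ^ 2 / 4) / ‖N‖ := ⟨_, rfl⟩
  have hk0 : 0 < k := by
    rw [hk]
    exact div_pos (Real.sqrt_pos.2 h4) hN0
  have hk2 : k ^ 2 * ‖N‖ ^ 2 = 1 - ‖N‖ ^ 2 / 4 := by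
    rw [hk, div_pow, Real.sq_sqrt h4.le]
    field_simp
  have hkN : k ^ 2 * (N.re ^ 2 + N.im ^ 2) = 1 - (N.re ^ 2 + N.im ^ 2) / 4 := by
    rw [← nsq22]
    exact hk2
  refine ⟨(z1 + z3) / 2 + (k : ℂ) * I * N, ?_, ?_, ?_⟩
  · have e1 : z1 - ((z1 + z3) / 2 + (k : ℂ) * I * N) = -(N / 2) - (k : ℂ) * I * N := by
      rw [hN]; ring
    rw [e1]
    have e2 : ‖-(N / 2) - (k : ℂ) * I * N‖ ^ 2 = 1 := by
      rw [nsq22]
      simp only [Complex.sub_re, Complex.sub_im, Complex.neg_re, Complex.neg_im, Complex.mul_re,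
        Complex.mul_im, Complex.ofReal_re, Complex.ofReal_im, Complex.I_re, Complex.I_im,
        Complex.div_ofNat_re, Complex.div_ofNat_im]
      nlinarith
    exact (pow_eq_one_iff_of_nonneg (norm_nonneg _) two_ne_zero).1 e2
  · have e1 : z3 - ((z1 + z3) / 2 + (k : ℂ) * I * N) = N / 2 - (k : ℂ) * I * N := by
      rw [hN]; ring
    rw [e1]
    have e2 : ‖N / 2 - (k : ℂ) * I * N‖ ^ 2 = 1 := by
      rw [nsq22]
      simp only [Complex.sub_re, Complex.sub_im, Complex.mul_re,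
        Complex.mul_im, Complex.ofReal_re, Complex.ofReal_im, Complex.I_re, Complex.I_im,
        Complex.div_ofNat_re, Complex.div_ofNat_im]
      nlinarith
    exact (pow_eq_one_iff_of_nonneg (norm_nonneg _) two_ne_zero).1 e2
  · have e1 : z1 - ((z1 + z3) / 2 + (k : ℂ) * I * N) = -(N / 2) - (k : ℂ) * I * N := by
      rw [hN]; ring
    have e3 : z3 - ((z1 + z3) / 2 + (k : ℂ) * I * N) = N / 2 - (k : ℂ) * I * N := by
      rw [hN]; ring
    rw [e1, e3]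
    have e4 : crs (-(N / 2) - (k : ℂ) * I * N) (N / 2 - (k : ℂ) * I * N) = k * ‖N‖ ^ 2 := by
      rw [nsq22]
      simp only [crs, Complex.sub_re, Complex.sub_im, Complex.neg_re, Complex.neg_im,
        Complex.mul_re, Complex.mul_im, Complex.ofReal_re, Complex.ofReal_im, Complex.I_re,
        Complex.I_im, Complex.div_ofNat_re, Complex.div_ofNat_im, Complex.conj_re,
        Complex.conj_im]
      ring
    rw [e4]
    positivity

theorem crs_eq22 (u v : ℂ) : crs u v = u.re * v.im - u.im * v.re := by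
  simp only [crs, Complex.mul_im, Complex.conj_re, Complex.conj_im]
  ring

/-- coordinates -/
theorem coord22 {f1 f3 v : ℂ} (h : 0 < crs f1 f3) :
    v = ((crs v f3 / crs f1 f3 : ℝ) : ℂ) * f1 + ((crs f1 v / crs f1 f3 : ℝ) : ℂ) * f3 := by
  have h0 : crs f1 f3 ≠ 0 := h.ne'
  obtain ⟨D, hD⟩ : ∃ D, D = crs f1 f3 := ⟨_, rfl⟩
  rw [← hD] at h0 ⊢
  apply Complex.ext
  · simp only [Complex.add_re, Complex.mul_re, Complex.ofReal_re, Complex.ofReal_im, zero_mul,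
      sub_zero]
    rw [eq_comm, div_mul_eq_mul_div, div_mul_eq_mul_div, ← add_div, div_eq_iff h0, hD]
    simp only [crs_eq22]
    ring
  · simp only [Complex.add_im, Complex.mul_im, Complex.ofReal_re, Complex.ofReal_im, zero_mul,
      add_zero]
    rw [eq_comm, div_mul_eq_mul_div, div_mul_eq_mul_div, ← add_div, div_eq_iff h0, hD]
    simp only [crs_eq22]
    ring

theorem csum22 {f1 f3 v : ℂ} (h : 0 < crs f1 f3) :
    crs v f3 / crs f1 f3 + crs f1 v / crs f1 f3 = 1 - crs (f3 - f1) (v - f1) / crs f1 f3 := by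
  have h0 : crs f1 f3 ≠ 0 := h.ne'
  have h1 : crs (f3 - f1) (v - f1) = crs f1 f3 - crs v f3 - crs f1 v := by
    simp only [crs_eq22, Complex.sub_re, Complex.sub_im]
    ring
  rw [h1]
  field_simp
  ring

/-- one of two directions avoids a given point -/
theorem avoid22 {n : ℕ} {c : Fin n → ℂ} {M : ℕ} {g : ℤ → Fin n} {a b : ℤ → ℝ}
    (h : HD c M g a b) (k : ℤ) (hab : a k < b k) (w : ℂ) :
    ∃ u : ℂ, u ≠ w ∧ dist u (c (g k)) = 1 ∧ ∀ i, dist u (c i) ≤ 1 := by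
  have hT : ∀ θ ∈ AX.T 1 c (g k), dist (c (g k) + AX.e θ) (c (g k)) = 1 ∧
      ∀ i, dist (c (g k) + AX.e θ) (c i) ≤ 1 := by
    intro θ hθ
    refine ⟨?_, ?_⟩
    · rw [dist_eq_norm, add_sub_cancel_left]
      unfold AX.e
      exact Complex.norm_exp_ofReal_mul_I θ
    · have h1 : c (g k) + ((1 : ℝ) : ℂ) * AX.e θ ∈ AX.K 1 c := hθ
      rw [Complex.ofReal_one, one_mul] at h1
      exact (mem_K22 _ _).1 h1
  have ha := hT _ (hd_T22 h k)
  have hb := hT _ (hd_bT h k)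
  have hne : c (g k) + AX.e (a k) ≠ c (g k) + AX.e (b k) := by
    intro he
    have he' : AX.e (a k) = AX.e (b k) := add_left_cancel he
    unfold AX.e at he'
    rw [Complex.exp_eq_exp_iff_exists_int] at he'
    obtain ⟨z, hz⟩ := he'
    have h1 := congrArg Complex.im hz
    simp only [Complex.mul_im, Complex.add_im, Complex.ofReal_re, Complex.ofReal_im,
      Complex.I_re, Complex.I_im, Complex.intCast_re, Complex.intCast_im, Complex.mul_re,
      Complex.re_ofNat, Complex.im_ofNat, mul_one, mul_zero, zero_mul, add_zero, sub_zero,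
      zero_add] at h1
    have h2 := h.ltpi k
    have hpi := Real.pi_pos
    have h3 : (z : ℝ) * (2 * Real.pi) < 0 := by linarith
    have h4 : -Real.pi < (z : ℝ) * (2 * Real.pi) := by linarith
    have h5 : (z : ℝ) < 0 := by
      by_contra hn
      push Not at hn
      have := mul_nonneg hn (by linarith : (0 : ℝ) ≤ 2 * Real.pi)
      linarith
    have h6 : z ≤ -1 := by
      have : z < 0 := by exact_mod_cast h5
      omega
    have h7 : (z : ℝ) ≤ -1 := by exact_mod_cast h6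
    nlinarith
  by_cases hw : c (g k) + AX.e (a k) = w
  · exact ⟨_, by rw [← hw]; exact hne.symm, hb⟩
  · exact ⟨_, hw, ha⟩

theorem om_fn22 {x y : ℂ} (hne : x ≠ y) (h2 : dist x y < 2) : om x y = 1 / fn (y - x) := by
  unfold om fn
  rw [dist_comm, dist_eq_norm]
  rw [one_div_div]

/-- the quantitative form of the lemma -/
theorem v3_hd {n : ℕ} {c : Fin n → ℂ} {M : ℕ} {g : ℤ → Fin n} {a b : ℤ → ℝ}
    (h : HD c M g a b) (hab : ∀ k, a k < b k) {i j k l : ℤ} (hij : i < j) (hjk : j < k)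
    (hkl : k < l) (hl : l < i + M) :
    crs (c (g j) - c (g i)) (c (g l) - c (g i)) * fn (c (g k) - c (g i)) <
      crs (c (g k) - c (g i)) (c (g l) - c (g i)) * fn (c (g j) - c (g i)) +
      crs (c (g j) - c (g i)) (c (g k) - c (g i)) * fn (c (g l) - c (g i)) := by
  have hO := ORI n c M g a b h
  have hne13 : c (g j) ≠ c (g l) := hd_ne22 h (by omega) (by omega)
  have hD2 := D2 n c h.int
  obtain ⟨w, hw1, hw3, hw⟩ := v3_corner hne13 (hD2 _ _)
  obtain ⟨u1, hu1, hu1', hu1K⟩ := avoid22 h j (hab j) w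
  obtain ⟨u2, hu2, hu2', hu2K⟩ := avoid22 h k (hab k) w
  obtain ⟨u3, hu3, hu3', hu3K⟩ := avoid22 h l (hab l) w
  have hcast : ∀ x y : ℂ, ‖(x - w) - (y - w)‖ = dist x y := by
    intro x y
    rw [sub_sub_sub_cancel_right, dist_eq_norm]
  -- the disk of `i`
  have hin : ‖c (g i) - w‖ < 1 := by
    refine v3_in (f1 := c (g j) - w) (f3 := c (g l) - w) (u1 := u1 - w) (u3 := u3 - w)
      hw1 hw3 (sub_ne_zero.2 hu1) (sub_ne_zero.2 hu3) ?_ ?_ ?_ ?_ ?_ ?_ (coord22 hw) ?_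
    · rw [hcast]; exact hu1'
    · rw [hcast]; exact hu1K _
    · rw [hcast]; exact hu1K _
    · rw [hcast]; exact hu3'
    · rw [hcast]; exact hu3K _
    · rw [hcast]; exact hu3K _
    · rw [csum22 hw]
      have h1 := hO i j l hij (by omega) hl
      have h2 : 0 < crs (c (g l) - w - (c (g j) - w)) (c (g i) - w - (c (g j) - w)) := by
        rw [sub_sub_sub_cancel_right, sub_sub_sub_cancel_right, ← crs_cyc]
        exact h1
      have := div_pos h2 hw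
      linarith
  -- the disk of `k`
  have hout : 1 < ‖c (g k) - w‖ := by
    refine v3_out (f1 := c (g j) - w) (f3 := c (g l) - w) (u := u2 - w)
      hw1 hw3 (sub_ne_zero.2 hu2) ?_ ?_ ?_ (coord22 hw) ?_
    · rw [hcast]; exact hu2K _
    · rw [hcast]; exact hu2K _
    · rw [hcast]; exact hu2'
    · rw [csum22 hw]
      have h1 := hO j k l hjk hkl (by omega)
      have h2 : crs (c (g l) - w - (c (g j) - w)) (c (g k) - w - (c (g j) - w)) < 0 := by
        rw [sub_sub_sub_cancel_right, sub_sub_sub_cancel_right]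
        rw [crs_eq22] at h1 ⊢
        linarith
      have := div_neg_of_neg_of_pos h2 hw
      linarith
  have h1l := hO i j l hij (by omega) hl
  have hkl' := hO i k l (by omega) hkl hl
  have hjk' := hO i j k hij hjk (by omega)
  have hz2 : ‖c (g k) - c (g i)‖ < 2 := by
    rw [← dist_eq_norm]
    exact hD2 _ _
  have key := v3_core (c := w - c (g i)) (z1 := c (g j) - c (g i)) (z2 := c (g k) - c (g i))
    (z3 := c (g l) - c (g i)) (by rw [norm_sub_rev]; exact hin)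
    (by rw [sub_sub_sub_cancel_right]; exact hw1) (by rw [sub_sub_sub_cancel_right]; exact hw3)
    (by rw [sub_sub_sub_cancel_right]; exact hout) hz2 (div_nonneg hkl'.le h1l.le)
    (div_nonneg hjk'.le h1l.le) (coord22 h1l)
  have e1 : crs (c (g k) - c (g i)) (c (g l) - c (g i)) /
      crs (c (g j) - c (g i)) (c (g l) - c (g i)) * fn (c (g j) - c (g i)) +
      crs (c (g j) - c (g i)) (c (g k) - c (g i)) /
      crs (c (g j) - c (g i)) (c (g l) - c (g i)) * fn (c (g l) - c (g i)) =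
      (crs (c (g k) - c (g i)) (c (g l) - c (g i)) * fn (c (g j) - c (g i)) +
      crs (c (g j) - c (g i)) (c (g k) - c (g i)) * fn (c (g l) - c (g i))) /
      crs (c (g j) - c (g i)) (c (g l) - c (g i)) := by
    ring
  rw [e1, lt_div_iff₀ h1l] at key
  linarith

/-- the force of the edge `x y` at `x` -/
def vv (x y : ℂ) : ℂ := (om x y : ℂ) * (y - x)

/-- V3: the forces at a vertex of a full family are in strictly convex position -/
theorem V3 {n : ℕ} {c : Fin n → ℂ} {M : ℕ} {g : ℤ → Fin n} {a b : ℤ → ℝ}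
    (h : HD c M g a b) (hab : ∀ k, a k < b k) {i j k l : ℤ} (hij : i < j) (hjk : j < k)
    (hkl : k < l) (hl : l < i + M) :
    crs (vv (c (g i)) (c (g l)) - vv (c (g i)) (c (g j)))
      (vv (c (g i)) (c (g k)) - vv (c (g i)) (c (g j))) < 0 := by
  have hD2 := D2 n c h.int
  have hnj : c (g i) ≠ c (g j) := hd_ne22 h (by omega) (by omega)
  have hnk : c (g i) ≠ c (g k) := hd_ne22 h (by omega) (by omega)
  have hnl : c (g i) ≠ c (g l) := hd_ne22 h (by omega) (by omega)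
  have key := v3_hd h hab hij hjk hkl hl
  have oj := om_fn22 hnj (hD2 _ _)
  have ok := om_fn22 hnk (hD2 _ _)
  have ol := om_fn22 hnl (hD2 _ _)
  have fj : 0 < fn (c (g j) - c (g i)) := fn_pos22 (sub_ne_zero.2 hnj.symm) (by
    rw [← dist_eq_norm]; exact hD2 _ _)
  have fk : 0 < fn (c (g k) - c (g i)) := fn_pos22 (sub_ne_zero.2 hnk.symm) (by
    rw [← dist_eq_norm]; exact hD2 _ _)
  have fl : 0 < fn (c (g l) - c (g i)) := fn_pos22 (sub_ne_zero.2 hnl.symm) (by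
    rw [← dist_eq_norm]; exact hD2 _ _)
  obtain ⟨X, hX⟩ : ∃ X, X = c (g j) - c (g i) := ⟨_, rfl⟩
  obtain ⟨Y, hY⟩ : ∃ Y, Y = c (g k) - c (g i) := ⟨_, rfl⟩
  obtain ⟨Z, hZ⟩ : ∃ Z, Z = c (g l) - c (g i) := ⟨_, rfl⟩
  unfold vv
  rw [oj, ok, ol]
  rw [← hX, ← hY, ← hZ]
  rw [← hX, ← hY, ← hZ] at key
  rw [← hX] at fj
  rw [← hY] at fk
  rw [← hZ] at fl
  obtain ⟨x, hx⟩ : ∃ x, x = fn X := ⟨_, rfl⟩
  obtain ⟨y, hy⟩ : ∃ y, y = fn Y := ⟨_, rfl⟩
  obtain ⟨z, hz⟩ : ∃ z, z = fn Z := ⟨_, rfl⟩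
  rw [← hx, ← hy, ← hz]
  rw [← hx, ← hy, ← hz] at key
  rw [← hx] at fj
  rw [← hy] at fk
  rw [← hz] at fl
  have e1 : crs (((1 / z : ℝ) : ℂ) * Z - ((1 / x : ℝ) : ℂ) * X)
      (((1 / y : ℝ) : ℂ) * Y - ((1 / x : ℝ) : ℂ) * X) =
      (crs X Z * y - (crs Y Z * x + crs X Y * z)) / (x * y * z) := by
    rw [eq_div_iff (by positivity)]
    simp only [crs_eq22, Complex.sub_re, Complex.sub_im, Complex.mul_re, Complex.mul_im,
      Complex.ofReal_re, Complex.ofReal_im]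
    field_simp
    ring
  rw [e1]
  exact div_neg_of_neg_of_pos (by linarith) (by positivity)

/-- the parallelogram equation at a vertex of a full family has no solution -/
theorem V3mid {n : ℕ} {c : Fin n → ℂ} {M : ℕ} {g : ℤ → Fin n} {a b : ℤ → ℝ}
    (h : HD c M g a b) (hab : ∀ k, a k < b k) {i j k l m : ℤ} (hij : i < j) (hjk : j < k)
    (hkl : k < l) (hlm : l < m) (hm : m < i + M) :
    vv (c (g i)) (c (g j)) + vv (c (g i)) (c (g m)) ≠
      vv (c (g i)) (c (g k)) + vv (c (g i)) (c (g l)) := by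
  intro he
  have h1 := V3 h hab hij hjk (hkl.trans hlm) hm
  have h2 := V3 h hab hij (hjk.trans hkl) hlm hm
  have e1 : vv (c (g i)) (c (g m)) = vv (c (g i)) (c (g k)) + vv (c (g i)) (c (g l)) -
      vv (c (g i)) (c (g j)) := by
    rw [← he]; ring
  rw [e1] at h1 h2
  simp only [crs_eq22, Complex.sub_re, Complex.sub_im, Complex.add_re, Complex.add_im] at h1 h2
  linarith

end H22
end E5
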