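import Pool.Agent.Helper71.E5.WStmts3
import Pool.Agent.Helper49.E5.KXB
import Pool.Agent.Helper22.E5.V3

/-!
MP_efd95c_co, wheels: row KYE (end kink `a` with unstressed slack spoke, `yx` slack). Everything
happens at the vertex `x`.
-/

set_option autoImplicit false
set_option linter.unusedVariables false

open Real

noncomputable section

namespace E5
namespace H22

/-- component in the direction `ψ` -/
def fc (ψ : ℝ) (z : ℂ) : ℝ := z.re * Real.cos ψ + z.im * Real.sin ψ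

theorem fc_add (ψ : ℝ) (z w : ℂ) : fc ψ (z + w) = fc ψ z + fc ψ w := by
  unfold fc
  simp only [Complex.add_re, Complex.add_im]
  ring

theorem fc_sub (ψ : ℝ) (z w : ℂ) : fc ψ (z - w) = fc ψ z - fc ψ w := by
  unfold fc
  simp only [Complex.sub_re, Complex.sub_im]
  ring

theorem fc_smul (ψ k : ℝ) (z : ℂ) : fc ψ ((k : ℂ) * z) = k * fc ψ z := by
  unfold fc
  rw [Complex.re_ofReal_mul, Complex.im_ofReal_mul]
  ring

theorem fc_pol (ψ k u : ℝ) : fc ψ ((k : ℂ) * AX.e u) = k * Real.cos (u - ψ) := by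
  unfold fc
  rw [Complex.re_ofReal_mul, Complex.im_ofReal_mul, k_e_re, k_e_im, Real.cos_sub]
  ring

theorem fc_three (A B C : ℝ) (z : ℂ) : Real.sin (C - B) * fc A z + Real.sin (A - C) * fc B z +
    Real.sin (B - A) * fc C z = 0 := by
  unfold fc
  rw [Real.sin_sub, Real.sin_sub, Real.sin_sub]
  ring

theorem fc_lag (A B : ℝ) (P R : ℂ) : Real.sin (B - A) * crs P R =
    fc A P * fc B R - fc B P * fc A R := by
  unfold fc
  rw [crs_eq22, Real.sin_sub]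
  ring

theorem crs_three (ψ : ℝ) (E1 E2 E3 : ℂ) : crs E3 E1 * fc ψ E2 =
    crs E2 E1 * fc ψ E3 + crs E3 E2 * fc ψ E1 := by
  unfold fc
  simp only [crs_eq22]
  ring

/-- three forces in convex position -/
theorem v3x {c z1 z2 z3 : ℂ} (hc : ‖c‖ < 1) (h1 : ‖z1 - c‖ = 1) (h3 : ‖z3 - c‖ = 1)
    (h2 : 1 < ‖z2 - c‖) (hz2 : ‖z2‖ < 2) (h12 : 0 ≤ crs z1 z2) (h23 : 0 ≤ crs z2 z3)
    (h13 : 0 < crs z1 z3) :
    0 < crs (((1 / fn z2 : ℝ) : ℂ) * z2 - ((1 / fn z1 : ℝ) : ℂ) * z1)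
      (((1 / fn z3 : ℝ) : ℂ) * z3 - ((1 / fn z2 : ℝ) : ℂ) * z2) := by
  have hz20 : z2 ≠ 0 := by
    rintro rfl
    rw [zero_sub, norm_neg] at h2
    linarith
  have hz10 : z1 ≠ 0 := by
    rintro rfl
    rw [crs_eq22] at h13
    simp at h13
  have hz30 : z3 ≠ 0 := by
    rintro rfl
    rw [crs_eq22] at h13
    simp at h13
  obtain ⟨n1, -⟩ := v3_circ hc h1
  obtain ⟨n3, -⟩ := v3_circ hc h3
  have f1 := fn_pos22 hz10 n1
  have f3 := fn_pos22 hz30 n3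
  have f2 := fn_pos22 hz20 hz2
  have he := coord22 (v := z2) h13
  have key := v3_core hc h1 h3 h2 hz2 (div_nonneg h23 h13.le) (div_nonneg h12 h13.le) he
  have k2 : crs z1 z3 * fn z2 < crs z2 z3 * fn z1 + crs z1 z2 * fn z3 := by
    have := mul_lt_mul_of_pos_left key h13
    have e : crs z1 z3 * (crs z2 z3 / crs z1 z3 * fn z1 + crs z1 z2 / crs z1 z3 * fn z3) =
        crs z2 z3 * fn z1 + crs z1 z2 * fn z3 := by
      field_simp
    linarith
  have e2 : crs (((1 / fn z2 : ℝ) : ℂ) * z2 - ((1 / fn z1 : ℝ) : ℂ) * z1)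
      (((1 / fn z3 : ℝ) : ℂ) * z3 - ((1 / fn z2 : ℝ) : ℂ) * z2) =
      (crs z2 z3 * fn z1 + crs z1 z2 * fn z3 - crs z1 z3 * fn z2) / (fn z1 * fn z2 * fn z3) := by
    simp only [crs_eq22, Complex.sub_re, Complex.sub_im, Complex.re_ofReal_mul,
      Complex.im_ofReal_mul]
    field_simp
    ring
  rw [e2]
  apply div_pos (by linarith) (by positivity)

theorem nrm22 (θ ρ ψ : ℝ) : ‖AX.e θ - (ρ : ℂ) * AX.e ψ‖ ^ 2 =
    1 + ρ ^ 2 - 2 * ρ * Real.cos (θ - ψ) := by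
  rw [nsq22, Complex.sub_re, Complex.sub_im, Complex.re_ofReal_mul, Complex.im_ofReal_mul, k_e_re,
    k_e_im, k_e_re, k_e_im, Real.cos_sub]
  have h1 := Real.sin_sq_add_cos_sq θ
  have h2 := Real.sin_sq_add_cos_sq ψ
  linear_combination h1 + ρ ^ 2 * h2

theorem nrm_eq22 {θ ρ ψ : ℝ} (h : ρ = 2 * Real.cos (θ - ψ)) : ‖AX.e θ - (ρ : ℂ) * AX.e ψ‖ = 1 := by
  have h1 := nrm22 θ ρ ψ
  have h2 : ‖AX.e θ - (ρ : ℂ) * AX.e ψ‖ ^ 2 = 1 := by rw [h1, h]; ring
  exact (pow_eq_one_iff_of_nonneg (norm_nonneg _) two_ne_zero).1 h2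

theorem nrm_lt22 {θ ρ ψ : ℝ} (h0 : 0 < ρ) (h : ρ < 2 * Real.cos (θ - ψ)) :
    ‖AX.e θ - (ρ : ℂ) * AX.e ψ‖ < 1 := by
  have h1 := nrm22 θ ρ ψ
  by_contra hn
  push Not at hn
  nlinarith

theorem nrm_gt22 {θ ρ ψ : ℝ} (h0 : 0 < ρ) (h : 2 * Real.cos (θ - ψ) < ρ) :
    1 < ‖AX.e θ - (ρ : ℂ) * AX.e ψ‖ := by
  have h1 := nrm22 θ ρ ψ
  by_contra hn
  push Not at hn
  nlinarith [norm_nonneg (AX.e θ - (ρ : ℂ) * AX.e ψ)]

/-- directions of the sums of the forces at `x` -/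
theorem kye_two {Uy Ua Up k : ℝ} {Vy Va Vb Vp : ℂ} (hk : 0 ≤ k)
    (he : Vy + Va = (k : ℂ) * (Vb + Vp)) (hUy : 0 < Uy) (hUa : 0 < Ua) (hUp : Up < Real.pi)
    (hya : Uy + Ua < Real.pi)
    (h1 : fc (-Uy) Vy = 1) (h2 : -1 < fc (-Uy) Va) (h3 : fc Ua Va = 1) (h4 : -1 < fc Ua Vy)
    (h5 : fc Up Vp = 1) (h6 : -1 ≤ fc Up Vb) : Uy + Up < Real.pi := by
  by_contra hn
  push Not at hn
  have a1 : 0 < fc (-Uy) (Vy + Va) := by rw [fc_add]; linarith
  have a2 : 0 < fc Ua (Vy + Va) := by rw [fc_add]; linarith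
  have a3 : 0 ≤ fc Up (Vy + Va) := by
    rw [he, fc_smul, fc_add]
    exact mul_nonneg hk (by linarith)
  have key := fc_three (-Uy) Ua Up (Vy + Va)
  have s1 : 0 < Real.sin (Up - Ua) := Real.sin_pos_of_pos_of_lt_pi (by linarith) (by linarith)
  have s2 : 0 ≤ Real.sin (-Uy - Up) := by
    have : Real.sin (-Uy - Up) = Real.sin (Uy + Up - Real.pi) := by
      rw [Real.sin_sub_pi, ← Real.sin_neg]
      congr 1
      ring
    rw [this]
    exact Real.sin_nonneg_of_nonneg_of_le_pi (by linarith) (by linarith)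
  have s3 : 0 < Real.sin (Ua - -Uy) := Real.sin_pos_of_pos_of_lt_pi (by linarith) (by linarith)
  have := mul_pos s1 a1
  have := mul_nonneg s2 a2.le
  have := mul_nonneg s3.le a3
  linarith

/-- the force of `y` against the force of `b` in the direction `Up` -/
theorem kye_three {Uy Up d : ℝ} {E2 E3 : ℂ} (hd : 0 < d) (hUy : 0 < Uy) (hdU : d ≤ Up)
    (hs : Uy + Up < Real.pi) (h1 : fc (-Uy) E3 < 0) (h2 : fc (-Uy) E2 < 0) (h3 : 0 < fc d E2)
    (h4 : 0 < crs E3 E2) : 0 < fc Up E3 := by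
  have e1 := fc_lag (-Uy) d E3 E2
  have s1 : 0 < Real.sin (d - -Uy) := Real.sin_pos_of_pos_of_lt_pi (by linarith) (by linarith)
  have a1 : 0 < fc d E3 := by
    have b1 := mul_pos s1 h4
    have b2 := mul_pos (neg_pos.2 h1) h3
    have b3 : 0 < fc d E3 * (-fc (-Uy) E2) := by linarith
    exact (mul_pos_iff_of_pos_right (neg_pos.2 h2)).1 b3
  have e2 := fc_three Up d (-Uy) E3
  have s2 : 0 < Real.sin (Up - -Uy) := Real.sin_pos_of_pos_of_lt_pi (by linarith) (by linarith)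
  have s3 : 0 ≤ Real.sin (Up - d) := Real.sin_nonneg_of_nonneg_of_le_pi (by linarith) (by linarith)
  have s4 : Real.sin (-Uy - d) = -Real.sin (d - -Uy) := by
    rw [← Real.sin_neg]; congr 1; ring
  have s5 : Real.sin (d - Up) = -Real.sin (Up - d) := by
    rw [← Real.sin_neg]; congr 1; ring
  rw [s4, s5] at e2
  have b1 := mul_pos s2 a1
  have b2 := mul_nonneg s3 (neg_pos.2 h1).le
  have b3 : 0 < Real.sin (d - -Uy) * fc Up E3 := by linarith
  exact (mul_pos_iff_of_pos_left s1).1 b3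

theorem crs_pol22 (r s φ ψ : ℝ) :
    crs ((r : ℂ) * AX.e φ) ((s : ℂ) * AX.e ψ) = r * s * Real.sin (ψ - φ) := by
  rw [crs_eq22, Complex.re_ofReal_mul, Complex.im_ofReal_mul, Complex.re_ofReal_mul,
    Complex.im_ofReal_mul, k_e_re, k_e_re, k_e_im, k_e_im, Real.sin_sub]
  ring

theorem gen22 {w : ℂ} {h u : ℝ} (h0 : 0 < h) (h1 : h < π / 2)
    (hw : w = ((2 * Real.sin h : ℝ) : ℂ) * AX.e u) : ‖w‖ = 2 * Real.sin h ∧ ‖w‖ < 2 ∧
    ((1 / fn w : ℝ) : ℂ) * w = ((1 / Real.cos h : ℝ) : ℂ) * AX.e u := by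
  have hs : 0 < Real.sin h := Real.sin_pos_of_pos_of_lt_pi h0 (by linarith [Real.pi_pos])
  have hc : 0 < Real.cos h := Real.cos_pos_of_mem_Ioo ⟨by linarith, h1⟩
  have hn : ‖w‖ = 2 * Real.sin h := by
    rw [hw, norm_mul, k_norm_e, mul_one, Complex.norm_real, Real.norm_of_nonneg (by linarith)]
  have hsq : Real.sqrt (4 - ‖w‖ ^ 2) = 2 * Real.cos h := by
    have : 4 - ‖w‖ ^ 2 = (2 * Real.cos h) ^ 2 := by
      rw [hn]
      nlinarith [Real.sin_sq_add_cos_sq h]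
    rw [this, Real.sqrt_sq (by linarith)]
  have hf : fn w = 2 * Real.sin h * Real.cos h := by
    unfold fn
    rw [hsq, hn]
    ring
  refine ⟨hn, ?_, ?_⟩
  · rw [hn]
    have : Real.sin h < 1 := by nlinarith [Real.sin_sq_add_cos_sq h]
    linarith
  · rw [hf, hw, ← mul_assoc, ← Complex.ofReal_mul]
    congr 2
    field_simp

theorem omc_fn22 {r s θ : ℝ} {w : ℂ} (hw : ‖w‖ = ch r s θ) : omc r s θ = 1 / fn w := by
  unfold omc fn
  rw [hw, one_div_div]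

/-- everything about the side `x - j` for `j` on the upper side -/
theorem up22 {r s θ : ℝ} (hr : 0 < r) (hs : 0 < s) (h0' : 0 < θ) (h1 : θ < π)
    (h2 : ch r s θ < 2) : 0 < hd r s θ ∧ hd r s θ < π / 2 ∧ 0 < un r s θ ∧ un r s θ < π ∧
    (r : ℂ) - (s : ℂ) * AX.e (-θ) = ((2 * Real.sin (hd r s θ) : ℝ) : ℂ) * AX.e (un r s θ) ∧
    (r : ℂ) - (s : ℂ) * AX.e θ = ((2 * Real.sin (hd r s θ) : ℝ) : ℂ) * AX.e (-un r s θ) ∧
    omc r s θ = 1 / fn ((r : ℂ) - (s : ℂ) * AX.e (-θ)) ∧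
    omc r s θ = 1 / fn ((r : ℂ) - (s : ℂ) * AX.e θ) := by
  have T := TRI r s θ hr hs h0' h1 h2
  have e1 := k_polar hr hs h0' h1 h2
  have e2 : (r : ℂ) - (s : ℂ) * AX.e θ = ((2 * Real.sin (hd r s θ) : ℝ) : ℂ) *
      AX.e (-un r s θ) := by
    have h := congrArg (starRingEnd ℂ) e1
    rw [map_sub, map_mul, map_mul, Complex.conj_ofReal, Complex.conj_ofReal, Complex.conj_ofReal,
      frc_conj, frc_conj, neg_neg] at h
    exact h
  refine ⟨T.2.2.1, T.2.2.2.1, T.2.2.2.2.1, T.2.2.2.2.2.1, e1, e2, omc_fn22 (un_norm r s θ), ?_⟩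
  apply omc_fn22
  rw [e2, norm_mul, k_norm_e, ← un_norm, e1, norm_mul, k_norm_e]

theorem hub_ro {r s θ : ℝ} (hr : 0 < r) (hr2 : r < 2) (hs : 0 < s) (hs2 : s < 2) (h0' : 0 < θ)
    (h1 : θ < π) (hc : ch r s θ < 2) (h : hd r s θ < h0 r + h0 s) :
    hd r s θ < un r s θ + h0 r := by
  have hpi := Real.pi_pos
  have T := TRI r s θ hr hs h0' h1 hc
  have s1 : Real.sin (h0 r) = r / 2 := Real.sin_arcsin (by linarith) (by linarith)
  have s2 : Real.sin (h0 s) = s / 2 := Real.sin_arcsin (by linarith) (by linarith)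
  have r0 : 0 < h0 r := Real.arcsin_pos.mpr (by linarith)
  have sp : h0 s < Real.pi / 2 := Real.arcsin_lt_pi_div_two.mpr (by linarith)
  obtain ⟨-, t2, t3, t4, t5, t6, t7, t8, -⟩ := T
  by_contra hn
  push Not at hn
  have law : s ^ 2 = r ^ 2 + ch r s θ ^ 2 - 2 * r * ch r s θ * Real.cos (un r s θ) := by
    have e1 : s * Real.cos θ = r - ch r s θ * Real.cos (un r s θ) := by linarith
    have e2 : s ^ 2 = (s * Real.cos θ) ^ 2 + (s * Real.sin θ) ^ 2 := by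
      nlinarith [Real.sin_sq_add_cos_sq θ]
    rw [e2, e1, t8]
    nlinarith [Real.sin_sq_add_cos_sq (un r s θ)]
  rw [t2] at law
  have hsub := k_sinsub (hd r s θ) (h0 r)
  have hcos : Real.cos (hd r s θ - h0 r) ≤ Real.cos (un r s θ) :=
    Real.cos_le_cos_of_nonneg_of_le_pi t5.le (by linarith) (by linarith)
  have hsin : Real.sin (hd r s θ - h0 r) < Real.sin (h0 s) :=
    Real.sin_lt_sin_of_lt_of_le_pi_div_two (by linarith) sp.le (by linarith)
  have hsin0 : 0 < Real.sin (hd r s θ - h0 r) :=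
    Real.sin_pos_of_pos_of_lt_pi (by linarith) (by linarith)
  have p1 : 0 < Real.sin (hd r s θ) := Real.sin_pos_of_pos_of_lt_pi t3 (by linarith)
  have p2 : 0 < Real.sin (h0 r) := by rw [s1]; linarith
  have hsq : Real.sin (hd r s θ - h0 r) ^ 2 < Real.sin (h0 s) ^ 2 := by nlinarith
  have e3 : Real.sin (h0 s) ^ 2 = Real.sin (hd r s θ) ^ 2 + Real.sin (h0 r) ^ 2 -
      2 * Real.sin (hd r s θ) * Real.sin (h0 r) * Real.cos (un r s θ) := by
    rw [s2, s1]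
    linear_combination law / 4
  have := mul_le_mul_of_nonneg_left hcos (mul_pos p1 p2).le
  nlinarith

theorem e0_22 : AX.e 0 = 1 := by simp [AX.e]

theorem sin_h0 {r : ℝ} (h : 0 < r) (h2 : r < 2) : Real.sin (h0 r) = r / 2 ∧ 0 < h0 r ∧
    h0 r < π / 2 :=
  ⟨Real.sin_arcsin (by linarith) (by linarith), Real.arcsin_pos.mpr (by linarith),
    Real.arcsin_lt_pi_div_two.mpr (by linarith)⟩

theorem sin_lt22 {x y : ℝ} (hx : -π < x) (hy0 : 0 < y) (hy : y ≤ π / 2) (h : x < y) :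
    Real.sin x < Real.sin y := by
  rcases le_or_gt x 0 with hc | hc
  · have h1 : Real.sin x ≤ 0 := Real.sin_nonpos_of_nonpos_of_neg_pi_le hc hx.le
    have h2 : 0 < Real.sin y := Real.sin_pos_of_pos_of_lt_pi hy0 (by linarith)
    linarith
  · exact Real.sin_lt_sin_of_lt_of_le_pi_div_two (by linarith [Real.pi_pos]) hy h

/-- `sin x < sin y` for `0 < x < y < π - x` -/
theorem sin_lt22' {x y : ℝ} (hx : 0 < x) (hx2 : x < π / 2) (h : x < y) (h2 : y < π - x) :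
    Real.sin x < Real.sin y := by
  rcases le_or_gt y (π / 2) with hc | hc
  · exact Real.sin_lt_sin_of_lt_of_le_pi_div_two (by linarith) hc h
  · rw [← Real.sin_pi_sub y]
    exact Real.sin_lt_sin_of_lt_of_le_pi_div_two (by linarith) (by linarith) (by linarith)

/-- order of the lower arcs at a vertex, strict -/
theorem ro22 {rb ra ry Φ b3 d1 d2 d3 u1 u2 : ℝ}
    (h1 : rb - ra * Real.cos Φ = 2 * Real.sin d1 * Real.cos u1)
    (h2 : ra * Real.sin Φ = 2 * Real.sin d1 * Real.sin u1)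
    (h3 : rb - ry * Real.cos b3 = 2 * Real.sin d2 * Real.cos u2)
    (h4 : ry * Real.sin b3 = 2 * Real.sin d2 * Real.sin u2)
    (h5 : ra ^ 2 + ry ^ 2 - 2 * ra * ry * Real.cos (Φ - b3) = (2 * Real.sin d3) ^ 2)
    (hu : u1 < u2) (hd1 : 0 < d1) (hd2 : d2 < π / 2)
    (hd3 : d3 < π / 2) (hrc : d2 < d3 + d1) : u1 - d1 < u2 - d2 := by
  have hpi := Real.pi_pos
  rcases le_or_gt d2 d1 with hc | hc
  · linarith
  have law := k_law h1 h2 h3 h4
  rw [h5] at law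
  have e1 := k_sinsub d2 d1
  have hs1 : 0 < Real.sin d1 := Real.sin_pos_of_pos_of_lt_pi hd1 (by linarith)
  have hs2 : 0 < Real.sin d2 := Real.sin_pos_of_pos_of_lt_pi (by linarith) (by linarith)
  have e2 : Real.sin (d2 - d1) < Real.sin d3 :=
    Real.sin_lt_sin_of_lt_of_le_pi_div_two (by linarith) (by linarith) (by linarith)
  have e3 : 0 < Real.sin (d2 - d1) := Real.sin_pos_of_pos_of_lt_pi (by linarith) (by linarith)
  have e4 : Real.sin (d2 - d1) ^ 2 < Real.sin d3 ^ 2 := by nlinarith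
  by_contra hcon
  push Not at hcon
  have e5 : Real.cos (d2 - d1) ≤ Real.cos (u2 - u1) :=
    Real.cos_le_cos_of_nonneg_of_le_pi (by linarith) (by linarith) (by linarith)
  have e6 := mul_le_mul_of_nonneg_left e5 (mul_pos hs1 hs2).le
  nlinarith

/-- (V3) at `x` for `y, b, 0` -/
theorem v3_a {ra rx ry rb b1 b2 b3 : ℝ} (Q : WQD ra rx ry rb b1 b2 b3) :
    0 < crs (((1 / fn ((rx : ℂ) - (rb : ℂ) * AX.e (b2 + b3)) : ℝ) : ℂ) *
        ((rx : ℂ) - (rb : ℂ) * AX.e (b2 + b3)) -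
      ((1 / fn ((rx : ℂ) - (ry : ℂ) * AX.e b2) : ℝ) : ℂ) * ((rx : ℂ) - (ry : ℂ) * AX.e b2))
      (((1 / fn (rx : ℂ) : ℝ) : ℂ) * (rx : ℂ) -
      ((1 / fn ((rx : ℂ) - (rb : ℂ) * AX.e (b2 + b3)) : ℝ) : ℂ) *
        ((rx : ℂ) - (rb : ℂ) * AX.e (b2 + b3))) := by
  have hpi := Real.pi_pos
  have rx0 := Q.rx0
  have ry0 := Q.ry0
  have rb0 := Q.rb0
  have b10 := Q.b10
  have b20 := Q.b20
  have b30 := Q.b30
  have bs := Q.bs
  obtain ⟨sx, x0, xp⟩ := sin_h0 Q.rx0 Q.rx2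
  obtain ⟨sy, y0, yp⟩ := sin_h0 Q.ry0 Q.ry2
  obtain ⟨sb, z0, zp⟩ := sin_h0 Q.rb0 Q.rb2
  obtain ⟨sa, w0, wp⟩ := sin_h0 Q.ra0 Q.ra2
  obtain ⟨hy0, hyp, uy0, uyp, -, wy, -, oy⟩ := up22 rx0 ry0 b20 (by linarith) Q.cxy2
  obtain ⟨hb0, hbp, ub0, ubp, -, wb, -, ob⟩ := up22 rx0 rb0 (by linarith : 0 < b2 + b3)
    (by linarith) Q.cxb2
  have q0 := Q.q0
  have l2 := Q.l2
  have l3 := Q.l3
  have l5 := Q.l5
  have l6 := Q.l6
  have wx : (rx : ℂ) = ((rx : ℝ) : ℂ) * AX.e 0 := by rw [e0_22, mul_one]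
  have sbp : 0 < Real.sin (hd rx rb (b2 + b3)) := Real.sin_pos_of_pos_of_lt_pi hb0 (by linarith)
  have syp : 0 < Real.sin (hd rx ry b2) := Real.sin_pos_of_pos_of_lt_pi hy0 (by linarith)
  apply v3x (c := (rx : ℂ) - AX.e (b2 - (π / 2 - h0 ry)))
  · rw [norm_sub_rev]
    have : (rx : ℂ) = ((rx : ℝ) : ℂ) * AX.e 0 := wx
    rw [this]
    apply nrm_lt22 rx0
    rw [sub_zero, show b2 - (π / 2 - h0 ry) = (b2 + h0 ry) - π / 2 by ring,
      Real.cos_sub_pi_div_two]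
    have : Real.sin (h0 rx) < Real.sin (b2 + h0 ry) :=
      sin_lt22' x0 xp l3 (by linarith)
    linarith
  · have : (rx : ℂ) - (ry : ℂ) * AX.e b2 - ((rx : ℂ) - AX.e (b2 - (π / 2 - h0 ry))) =
        AX.e (b2 - (π / 2 - h0 ry)) - (ry : ℂ) * AX.e b2 := by ring
    rw [this]
    apply nrm_eq22
    rw [show b2 - (π / 2 - h0 ry) - b2 = h0 ry - π / 2 by ring, Real.cos_sub_pi_div_two]
    linarith
  · have : (rx : ℂ) - ((rx : ℂ) - AX.e (b2 - (π / 2 - h0 ry))) =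
        AX.e (b2 - (π / 2 - h0 ry)) := by ring
    rw [this, k_norm_e]
  · have : (rx : ℂ) - (rb : ℂ) * AX.e (b2 + b3) - ((rx : ℂ) - AX.e (b2 - (π / 2 - h0 ry))) =
        AX.e (b2 - (π / 2 - h0 ry)) - (rb : ℂ) * AX.e (b2 + b3) := by ring
    rw [this]
    apply nrm_gt22 rb0
    rw [show b2 - (π / 2 - h0 ry) - (b2 + b3) = (h0 ry - b3) - π / 2 by ring,
      Real.cos_sub_pi_div_two]
    have : Real.sin (h0 ry - b3) < Real.sin (h0 rb) :=
      sin_lt22 (by linarith) z0 zp.le (by linarith)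
    linarith
  · exact (gen22 hb0 hbp wb).2.1
  · rw [wy, wb, crs_pol22]
    have : 0 ≤ Real.sin (-un rx rb (b2 + b3) - -un rx ry b2) :=
      Real.sin_nonneg_of_nonneg_of_le_pi (by linarith [Q.ux1]) (by linarith)
    positivity
  · rw [wb, wx, crs_pol22]
    have : 0 ≤ Real.sin (0 - -un rx rb (b2 + b3)) :=
      Real.sin_nonneg_of_nonneg_of_le_pi (by linarith) (by linarith)
    positivity
  · rw [wy, wx, crs_pol22]
    have : 0 < Real.sin (0 - -un rx ry b2) :=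
      Real.sin_pos_of_pos_of_lt_pi (by linarith) (by linarith)
    positivity

/-- (V3) at `x` for `b, 0, a` -/
theorem v3_b {ra rx ry rb b1 b2 b3 : ℝ} (Q : WQD ra rx ry rb b1 b2 b3) :
    0 < crs (((1 / fn (rx : ℂ) : ℝ) : ℂ) * (rx : ℂ) -
      ((1 / fn ((rx : ℂ) - (rb : ℂ) * AX.e (b2 + b3)) : ℝ) : ℂ) *
        ((rx : ℂ) - (rb : ℂ) * AX.e (b2 + b3)))
      (((1 / fn ((rx : ℂ) - (ra : ℂ) * AX.e (-b1)) : ℝ) : ℂ) *
        ((rx : ℂ) - (ra : ℂ) * AX.e (-b1)) - ((1 / fn (rx : ℂ) : ℝ) : ℂ) * (rx : ℂ)) := by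
  have hpi := Real.pi_pos
  have ra0 := Q.ra0
  have rx0 := Q.rx0
  have rb0 := Q.rb0
  have b10 := Q.b10
  have b20 := Q.b20
  have b30 := Q.b30
  have bs := Q.bs
  obtain ⟨sx, x0, xp⟩ := sin_h0 Q.rx0 Q.rx2
  obtain ⟨sb, z0, zp⟩ := sin_h0 Q.rb0 Q.rb2
  obtain ⟨sa, w0, wp⟩ := sin_h0 Q.ra0 Q.ra2
  obtain ⟨hb0, hbp, ub0, ubp, -, wb, -, ob⟩ := up22 rx0 rb0 (by linarith : 0 < b2 + b3)
    (by linarith) Q.cxb2
  have cxa2 : ch rx ra b1 < 2 := by rw [k_sym]; exact Q.cax2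
  obtain ⟨ha0, hap, ua0, uap, wa, -, oa, -⟩ := up22 rx0 ra0 b10 (by linarith) cxa2
  -- at the vertex `a`
  obtain ⟨hx0, hxp, vx0, vxp, -, wx', -, -⟩ := up22 ra0 rx0 b10 (by linarith) Q.cax2
  obtain ⟨hB0, hBp, vB0, vBp, -, wB', -, -⟩ := up22 ra0 rb0 (by linarith : 0 < b1 + b2 + b3)
    bs Q.cab2
  have Tx := TRI ra rx b1 ra0 rx0 b10 (by linarith) Q.cax2
  have TB := TRI ra rb (b1 + b2 + b3) ra0 rb0 (by linarith) bs Q.cab2
  have TXB := TRI rx rb (b2 + b3) rx0 rb0 (by linarith) (by linarith) Q.cxb2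
  have ro : un ra rb (b1 + b2 + b3) - hd ra rb (b1 + b2 + b3) < un ra rx b1 - hd ra rx b1 := by
    refine ro22 (rb := ra) (ra := rb) (ry := rx) (Φ := b1 + b2 + b3) (b3 := b1)
      (d3 := hd rx rb (b2 + b3)) ?_ ?_ ?_ ?_ ?_ (by linarith [Q.ua1, Q.ua2]) hB0 hxp hbp
      (by linarith [Q.qaxb.1, Q.qaxb.2.1])
    · rw [TB.2.2.2.2.2.2.1, TB.2.1]
    · rw [TB.2.2.2.2.2.2.2.1, TB.2.1]
    · rw [Tx.2.2.2.2.2.2.1, Tx.2.1]
    · rw [Tx.2.2.2.2.2.2.2.1, Tx.2.1]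
    · rw [← TXB.2.1, ch_sq, show b1 + b2 + b3 - b1 = b2 + b3 by ring]
      ring
  have hub := hub_ro ra0 Q.ra2 rb0 Q.rb2 (by linarith : 0 < b1 + b2 + b3) bs Q.cab2
    Q.q0ab.2.2.1
  have qa := Q.qa
  have qx := Q.qx
  unfold UU at qa qx
  have wx : (rx : ℂ) = ((rx : ℝ) : ℂ) * AX.e 0 := by rw [e0_22, mul_one]
  have sbp : 0 < Real.sin (hd rx rb (b2 + b3)) := Real.sin_pos_of_pos_of_lt_pi hb0 (by linarith)
  have sap : 0 < Real.sin (hd rx ra b1) := Real.sin_pos_of_pos_of_lt_pi ha0 (by linarith)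
  have eb : AX.e (-b1) * AX.e b1 = 1 := by rw [← frc_add, neg_add_cancel, e0_22]
  have eB : AX.e (-b1) * AX.e (b1 + b2 + b3) = AX.e (b2 + b3) := by
    rw [← frc_add]; congr 1; ring
  obtain ⟨χ, hχ⟩ : ∃ χ : ℝ, χ = π / 2 - b1 - un ra rb (b1 + b2 + b3) +
      hd ra rb (b1 + b2 + b3) := ⟨_, rfl⟩
  have hux := Q.ux1
  apply v3x (c := (rx : ℂ) - ((ra : ℂ) * AX.e (-b1) + AX.e χ))
  · have e1 : (rx : ℂ) - ((ra : ℂ) * AX.e (-b1) + AX.e χ) =
        -(AX.e χ - ((-(2 * Real.sin (hd ra rx b1)) : ℝ) : ℂ) * AX.e (-b1 - un ra rx b1)) := by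
      have e2 : (rx : ℂ) - (ra : ℂ) * AX.e (-b1) =
          -(AX.e (-b1) * ((ra : ℂ) - (rx : ℂ) * AX.e b1)) := by
        linear_combination (-(rx : ℂ)) * eb
      rw [← sub_sub, e2, wx', show -b1 - un ra rx b1 = -b1 + -un ra rx b1 by ring, frc_add]
      push_cast
      ring
    rw [e1, norm_neg]
    have h1 := nrm22 χ (-(2 * Real.sin (hd ra rx b1))) (-b1 - un ra rx b1)
    rw [show χ - (-b1 - un ra rx b1) = (un ra rx b1 - un ra rb (b1 + b2 + b3) +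
      hd ra rb (b1 + b2 + b3)) + π / 2 by rw [hχ]; ring, Real.cos_add_pi_div_two] at h1
    have h2 : Real.sin (hd ra rx b1) < Real.sin (un ra rx b1 - un ra rb (b1 + b2 + b3) +
      hd ra rb (b1 + b2 + b3)) := sin_lt22' hx0 hxp (by linarith) (by linarith)
    have h3 : 0 < Real.sin (hd ra rx b1) := Real.sin_pos_of_pos_of_lt_pi hx0 (by linarith)
    have h5 := mul_pos h3 (sub_pos.2 h2)
    by_contra hn
    push Not at hn
    have h6 := one_le_pow₀ hn (n := 2)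
    rw [h1] at h6
    clear * - h5 h6
    linarith
  · have e1 : (rx : ℂ) - (rb : ℂ) * AX.e (b2 + b3) - ((rx : ℂ) - ((ra : ℂ) * AX.e (-b1) +
        AX.e χ)) = AX.e χ - ((-(2 * Real.sin (hd ra rb (b1 + b2 + b3))) : ℝ) : ℂ) *
        AX.e (-b1 - un ra rb (b1 + b2 + b3)) := by
      have e2 : (ra : ℂ) * AX.e (-b1) - (rb : ℂ) * AX.e (b2 + b3) =
          AX.e (-b1) * ((ra : ℂ) - (rb : ℂ) * AX.e (b1 + b2 + b3)) := by
        linear_combination (rb : ℂ) * eB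
      have e3 : (rx : ℂ) - (rb : ℂ) * AX.e (b2 + b3) - ((rx : ℂ) - ((ra : ℂ) * AX.e (-b1) +
        AX.e χ)) = ((ra : ℂ) * AX.e (-b1) - (rb : ℂ) * AX.e (b2 + b3)) + AX.e χ := by ring
      rw [e3, e2, wB', show -b1 - un ra rb (b1 + b2 + b3) = -b1 + -un ra rb (b1 + b2 + b3) by ring,
        frc_add]
      push_cast
      ring
    rw [e1]
    apply nrm_eq22
    rw [show χ - (-b1 - un ra rb (b1 + b2 + b3)) = hd ra rb (b1 + b2 + b3) + π / 2 by
      rw [hχ]; ring, Real.cos_add_pi_div_two]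
    ring
  · have : (rx : ℂ) - (ra : ℂ) * AX.e (-b1) - ((rx : ℂ) - ((ra : ℂ) * AX.e (-b1) + AX.e χ)) =
        AX.e χ := by ring
    rw [this, k_norm_e]
  · have e1 : (rx : ℂ) - ((rx : ℂ) - ((ra : ℂ) * AX.e (-b1) + AX.e χ)) =
        AX.e χ - ((-ra : ℝ) : ℂ) * AX.e (-b1) := by
      push_cast
      ring
    rw [e1]
    have h1 := nrm22 χ (-ra) (-b1)
    rw [show χ - -b1 = π / 2 - (un ra rb (b1 + b2 + b3) - hd ra rb (b1 + b2 + b3)) by
      rw [hχ]; ring, Real.cos_pi_div_two_sub] at h1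
    have h2 : Real.sin (hd ra rb (b1 + b2 + b3) - un ra rb (b1 + b2 + b3)) < Real.sin (h0 ra) :=
      sin_lt22 (by linarith) w0 wp.le (by linarith)
    have h3 : Real.sin (hd ra rb (b1 + b2 + b3) - un ra rb (b1 + b2 + b3)) =
        -Real.sin (un ra rb (b1 + b2 + b3) - hd ra rb (b1 + b2 + b3)) := by
      rw [← Real.sin_neg]; congr 1; ring
    rw [h3, sa] at h2
    have h5 := mul_pos ra0 (sub_pos.2 h2)
    by_contra hn
    push Not at hn
    have h6 := pow_le_one₀ (norm_nonneg _) hn (n := 2)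
    rw [h1] at h6
    clear * - h5 h6
    linarith
  · rw [Complex.norm_real, Real.norm_of_nonneg rx0.le]
    exact Q.rx2
  · rw [wb, wx, crs_pol22]
    have : 0 ≤ Real.sin (0 - -un rx rb (b2 + b3)) :=
      Real.sin_nonneg_of_nonneg_of_le_pi (by linarith) (by linarith)
    positivity
  · rw [wa, wx, crs_pol22]
    have : 0 ≤ Real.sin (un rx ra b1 - 0) :=
      Real.sin_nonneg_of_nonneg_of_le_pi (by linarith) (by linarith)
    positivity
  · rw [wb, wa, crs_pol22]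
    have : 0 < Real.sin (un rx ra b1 - -un rx rb (b2 + b3)) :=
      Real.sin_pos_of_pos_of_lt_pi (by linarith) (by linarith [Q.ux2])
    positivity

/-- (V3) at `x` for `0`, the position of `y` in `p`, and `a` -/
theorem v3_c {ra rx ry rb b1 b2 b3 t2 : ℝ} (Q : WQD ra rx ry rb b1 b2 b3)
    (ht : π - (b2 + b3) < t2) (htp : t2 < π) (hc : ch rx ry t2 < 2)
    (hu : un rx ry t2 ≤ un rx ra b1) :
    0 < crs (((1 / fn ((rx : ℂ) - (ry : ℂ) * AX.e (-t2)) : ℝ) : ℂ) *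
        ((rx : ℂ) - (ry : ℂ) * AX.e (-t2)) - ((1 / fn (rx : ℂ) : ℝ) : ℂ) * (rx : ℂ))
      (((1 / fn ((rx : ℂ) - (ra : ℂ) * AX.e (-b1)) : ℝ) : ℂ) *
        ((rx : ℂ) - (ra : ℂ) * AX.e (-b1)) -
      ((1 / fn ((rx : ℂ) - (ry : ℂ) * AX.e (-t2)) : ℝ) : ℂ) *
        ((rx : ℂ) - (ry : ℂ) * AX.e (-t2))) := by
  have hpi := Real.pi_pos
  have ra0 := Q.ra0
  have rx0 := Q.rx0
  have ry0 := Q.ry0
  have b10 := Q.b10
  have b20 := Q.b20
  have b30 := Q.b30
  have bs := Q.bs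
  obtain ⟨sx, x0, xp⟩ := sin_h0 Q.rx0 Q.rx2
  obtain ⟨sy, y0, yp⟩ := sin_h0 Q.ry0 Q.ry2
  obtain ⟨sb, z0, zp⟩ := sin_h0 Q.rb0 Q.rb2
  obtain ⟨sa, w0, wp⟩ := sin_h0 Q.ra0 Q.ra2
  have q0 := Q.q0
  have l2 := Q.l2
  have l3 := Q.l3
  have l5 := Q.l5
  have cxa2 : ch rx ra b1 < 2 := by rw [k_sym]; exact Q.cax2
  obtain ⟨ha0, hap, ua0, uap, wa, -, oa, -⟩ := up22 rx0 ra0 b10 (by linarith) cxa2
  obtain ⟨hp0, hpp, up0, upp, wq, -, op, -⟩ := up22 rx0 ry0 (by linarith : 0 < t2) htp hc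
  have wx : (rx : ℂ) = ((rx : ℝ) : ℂ) * AX.e 0 := by rw [e0_22, mul_one]
  have spp : 0 < Real.sin (hd rx ry t2) := Real.sin_pos_of_pos_of_lt_pi hp0 (by linarith)
  have sap : 0 < Real.sin (hd rx ra b1) := Real.sin_pos_of_pos_of_lt_pi ha0 (by linarith)
  apply v3x (c := (rx : ℂ) - AX.e (-b1 + (π / 2 - h0 ra)))
  · rw [norm_sub_rev]
    have : (rx : ℂ) = ((rx : ℝ) : ℂ) * AX.e 0 := wx
    rw [this]
    apply nrm_lt22 rx0
    rw [sub_zero, show -b1 + (π / 2 - h0 ra) = π / 2 - (b1 + h0 ra) by ring,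
      Real.cos_pi_div_two_sub]
    have : Real.sin (h0 rx) < Real.sin (b1 + h0 ra) := sin_lt22' x0 xp l2 (by linarith)
    linarith
  · have : (rx : ℂ) - ((rx : ℂ) - AX.e (-b1 + (π / 2 - h0 ra))) =
        AX.e (-b1 + (π / 2 - h0 ra)) := by ring
    rw [this, k_norm_e]
  · have : (rx : ℂ) - (ra : ℂ) * AX.e (-b1) - ((rx : ℂ) - AX.e (-b1 + (π / 2 - h0 ra))) =
        AX.e (-b1 + (π / 2 - h0 ra)) - (ra : ℂ) * AX.e (-b1) := by ring
    rw [this]
    apply nrm_eq22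
    rw [show -b1 + (π / 2 - h0 ra) - -b1 = π / 2 - h0 ra by ring, Real.cos_pi_div_two_sub]
    linarith
  · have : (rx : ℂ) - (ry : ℂ) * AX.e (-t2) - ((rx : ℂ) - AX.e (-b1 + (π / 2 - h0 ra))) =
        AX.e (-b1 + (π / 2 - h0 ra)) - (ry : ℂ) * AX.e (-t2) := by ring
    rw [this]
    apply nrm_gt22 ry0
    rw [show -b1 + (π / 2 - h0 ra) - -t2 = (t2 - b1 - h0 ra) + π / 2 by ring,
      Real.cos_add_pi_div_two]
    have : 0 < Real.sin (t2 - b1 - h0 ra) :=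
      Real.sin_pos_of_pos_of_lt_pi (by linarith) (by linarith)
    linarith
  · exact (gen22 hp0 hpp wq).2.1
  · rw [wq, wx, crs_pol22]
    have : 0 ≤ Real.sin (un rx ry t2 - 0) :=
      Real.sin_nonneg_of_nonneg_of_le_pi (by linarith) (by linarith)
    positivity
  · rw [wq, wa, crs_pol22]
    have : 0 ≤ Real.sin (un rx ra b1 - un rx ry t2) :=
      Real.sin_nonneg_of_nonneg_of_le_pi (by linarith) (by linarith)
    positivity
  · rw [wa, wx, crs_pol22]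
    have : 0 < Real.sin (un rx ra b1 - 0) :=
      Real.sin_pos_of_pos_of_lt_pi (by linarith) (by linarith)
    positivity

theorem lo22 {c x : ℝ} (hc : 0 < c) (h : -c < x) : -1 < 1 / c * x := by
  rw [one_div_mul_eq_div, lt_div_iff₀ hc]
  linarith

theorem lo22' {c x : ℝ} (hc : 0 < c) (h : -c ≤ x) : -1 ≤ 1 / c * x := by
  rw [one_div_mul_eq_div, le_div_iff₀ hc]
  linarith

theorem hi22 {c x : ℝ} (hc : 0 < c) (h : x < c) : 1 / c * x < 1 := by
  rw [one_div_mul_eq_div, div_lt_one hc]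
  exact h

theorem disk22 {w0 wp wa : ℂ} {al be ψ : ℝ} (hal : 0 ≤ al) (hbe : 0 ≤ be) (hs : al + be ≤ 1)
    (he : wa = (al : ℂ) * w0 + (be : ℂ) * wp) (h0 : ‖w0‖ ^ 2 ≤ 2 * fc ψ w0)
    (hp : ‖wp‖ ^ 2 ≤ 2 * fc ψ wp) : ‖wa‖ ^ 2 ≤ 2 * fc ψ wa := by
  have e1 : fc ψ wa = al * fc ψ w0 + be * fc ψ wp := by
    rw [he, fc_add, fc_smul, fc_smul]
  have e2 : ‖wa‖ ^ 2 = (al + be) * (al * ‖w0‖ ^ 2 + be * ‖wp‖ ^ 2) -
      al * be * ((w0.re - wp.re) ^ 2 + (w0.im - wp.im) ^ 2) := by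
    rw [nsq22, nsq22, nsq22, he, Complex.add_re, Complex.add_im, Complex.re_ofReal_mul,
      Complex.im_ofReal_mul, Complex.re_ofReal_mul, Complex.im_ofReal_mul]
    ring
  have e3 : 0 ≤ al * be * ((w0.re - wp.re) ^ 2 + (w0.im - wp.im) ^ 2) := by positivity
  have e4 : 0 ≤ al * ‖w0‖ ^ 2 + be * ‖wp‖ ^ 2 := by positivity
  have e5 := mul_le_mul_of_nonneg_right hs e4
  have e6 := mul_le_mul_of_nonneg_left h0 hal
  have e7 := mul_le_mul_of_nonneg_left hp hbe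
  rw [e2, e1]
  linarith

/-- the vertex `x` of a type C pair with `yx` slack and `xb` tight, `t1 + t4 < π` -/
theorem kye_geo {ra rx ry rb b1 b2 b3 t2 k : ℝ} (Q : WQD ra rx ry rb b1 b2 b3)
    (ht : π - (b2 + b3) < t2) (htp : t2 < π) (hc : ch rx ry t2 < 2)
    (hx : UU rx ry t2 + UU rx rb (b2 + b3) ≤ π) (hxy : h0 rx < UU rx ry t2) (hk : 0 ≤ k)
    (hk1 : k ≠ 1 → UU rx ry t2 + UU rx rb (b2 + b3) = π)
    (he : (omc rx ra b1 : ℂ) * ((rx : ℂ) - (ra : ℂ) * AX.e (-b1)) +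
      (omc rx ry b2 : ℂ) * ((rx : ℂ) - (ry : ℂ) * AX.e b2) =
      (k : ℂ) * ((omc rx ry t2 : ℂ) * ((rx : ℂ) - (ry : ℂ) * AX.e (-t2)) +
        (omc rx rb (b2 + b3) : ℂ) * ((rx : ℂ) - (rb : ℂ) * AX.e (b2 + b3)))) : False := by
  have hpi := Real.pi_pos
  have ra0 := Q.ra0
  have rx0 := Q.rx0
  have ry0 := Q.ry0
  have rb0 := Q.rb0
  have b10 := Q.b10
  have b20 := Q.b20
  have b30 := Q.b30
  have bs := Q.bs
  obtain ⟨sx, x0, xp⟩ := sin_h0 Q.rx0 Q.rx2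
  have cxa2 : ch rx ra b1 < 2 := by rw [k_sym]; exact Q.cax2
  obtain ⟨ha0, hap, ua0, uap, wa, -, oa, -⟩ := up22 rx0 ra0 b10 (by linarith) cxa2
  obtain ⟨hy0, hyp, uy0, uyp, -, wy, -, oy⟩ := up22 rx0 ry0 b20 (by linarith) Q.cxy2
  obtain ⟨hb0, hbp, ub0, ubp, -, wb, -, ob⟩ := up22 rx0 rb0 (by linarith : 0 < b2 + b3)
    (by linarith) Q.cxb2
  obtain ⟨hq0, hqp, uq0, uqp, wq, -, oq, -⟩ := up22 rx0 ry0 (by linarith : 0 < t2) htp hc
  have wx : (rx : ℂ) = ((2 * Real.sin (h0 rx) : ℝ) : ℂ) * AX.e 0 := by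
    rw [e0_22, mul_one, sx]
    congr 1
    ring
  have A := v3_a Q
  have B := v3_b Q
  have C : un rx ry t2 ≤ un rx ra b1 → _ := v3_c Q ht htp hc
  have rcb := hub_ro rx0 Q.rx2 rb0 Q.rb2 (by linarith : 0 < b2 + b3) (by linarith) Q.cxb2
    Q.q0xb.2.2.1
  have rca := hub_ro rx0 Q.rx2 ra0 Q.ra2 b10 (by linarith) cxa2 (by
    rw [k_hsym]; linarith [Q.q0ax.2.2.1])
  have x1 := Q.x1
  have x2 := Q.x2
  have x3 := Q.x3
  have qx := Q.qx
  have hsum : (rx : ℂ) - (ry : ℂ) * AX.e (-t2) - (rx : ℂ) = ((-ry : ℝ) : ℂ) * AX.e (-t2) := by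
    push_cast; ring
  have hsum' : (rx : ℂ) - (ra : ℂ) * AX.e (-b1) - (rx : ℂ) = ((-ra : ℝ) : ℂ) * AX.e (-b1) := by
    push_cast; ring
  have hcr : 0 < crs ((rx : ℂ) - (ry : ℂ) * AX.e (-t2) - (rx : ℂ))
      ((rx : ℂ) - (ra : ℂ) * AX.e (-b1) - (rx : ℂ)) := by
    rw [hsum, hsum', crs_pol22]
    have : 0 < Real.sin (-b1 - -t2) := Real.sin_pos_of_pos_of_lt_pi (by linarith) (by linarith)
    have h2 := mul_pos (mul_pos ry0 ra0) this
    linarith
  have gVa := (gen22 ha0 hap wa).2.2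
  have gVy := (gen22 hy0 hyp wy).2.2
  have gVb := (gen22 hb0 hbp wb).2.2
  have gVq := (gen22 hq0 hqp wq).2.2
  have gV0 := (gen22 x0 xp wx).2.2
  rw [oa, oy, oq, ob, gVa, gVy, gVq, gVb] at he
  rw [gVb, gVy, gV0] at A
  rw [gVb, gVa, gV0] at B
  rw [gVq, gVa, gV0] at C
  unfold UU at hx hxy hk1 x1 x2 x3 qx
  have nwa := (gen22 ha0 hap wa).1
  have nwq := (gen22 hq0 hqp wq).1
  have nw0 := (gen22 x0 xp wx).1
  clear gVa gVy gVb gVq gV0 oa oy ob oq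
  generalize (rx : ℂ) - (ra : ℂ) * AX.e (-b1) = Wa at *
  generalize (rx : ℂ) - (ry : ℂ) * AX.e (-t2) = Wq at *
  generalize (rx : ℂ) - (rb : ℂ) * AX.e (b2 + b3) = Wb at *
  generalize (rx : ℂ) - (ry : ℂ) * AX.e b2 = Wy at *
  generalize (rx : ℂ) = W0 at *
  generalize hua : un rx ra b1 = ua at *
  generalize hha : hd rx ra b1 = ha at *
  generalize huy : un rx ry b2 = uy at *
  generalize hhy : hd rx ry b2 = hy at *
  generalize hub : un rx rb (b2 + b3) = ub at *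
  generalize hhb : hd rx rb (b2 + b3) = hb at *
  generalize huq : un rx ry t2 = uq at *
  generalize hhq : hd rx ry t2 = hq at *
  generalize hdx : h0 rx = d at *
  obtain ⟨Uy, hUy⟩ : ∃ U, U = uy + hy := ⟨_, rfl⟩
  obtain ⟨Ua, hUa⟩ : ∃ U, U = ua + ha := ⟨_, rfl⟩
  obtain ⟨Ub, hUb⟩ : ∃ U, U = ub + hb := ⟨_, rfl⟩
  obtain ⟨Uq, hUq⟩ : ∃ U, U = uq + hq := ⟨_, rfl⟩
  rw [← hUq, ← hUb] at hx hk1
  rw [← hUq] at hxy
  rw [← hUa] at x1
  rw [← hUb] at x2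
  rw [← hUb, ← hUy] at x3
  rw [← hUa, ← hUy] at qx
  have ca : 0 < Real.cos ha := Real.cos_pos_of_mem_Ioo ⟨by linarith, hap⟩
  have cy : 0 < Real.cos hy := Real.cos_pos_of_mem_Ioo ⟨by linarith, hyp⟩
  have cb : 0 < Real.cos hb := Real.cos_pos_of_mem_Ioo ⟨by linarith, hbp⟩
  have cq : 0 < Real.cos hq := Real.cos_pos_of_mem_Ioo ⟨by linarith, hqp⟩
  have c0 : 0 < Real.cos d := Real.cos_pos_of_mem_Ioo ⟨by linarith, xp⟩
  obtain ⟨Va, hVa⟩ : ∃ V : ℂ, V = ((1 / Real.cos ha : ℝ) : ℂ) * AX.e ua := ⟨_, rfl⟩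
  obtain ⟨Vy, hVy⟩ : ∃ V : ℂ, V = ((1 / Real.cos hy : ℝ) : ℂ) * AX.e (-uy) := ⟨_, rfl⟩
  obtain ⟨Vb, hVb⟩ : ∃ V : ℂ, V = ((1 / Real.cos hb : ℝ) : ℂ) * AX.e (-ub) := ⟨_, rfl⟩
  obtain ⟨Vq, hVq⟩ : ∃ V : ℂ, V = ((1 / Real.cos hq : ℝ) : ℂ) * AX.e uq := ⟨_, rfl⟩
  obtain ⟨V0, hV0⟩ : ∃ V : ℂ, V = ((1 / Real.cos d : ℝ) : ℂ) * AX.e 0 := ⟨_, rfl⟩
  rw [← hVa, ← hVy, ← hVb, ← hVq] at he
  rw [← hVb, ← hVy, ← hV0] at A
  rw [← hVb, ← hVa, ← hV0] at B
  rw [← hVq, ← hVa, ← hV0] at C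
  -- components
  have f1 : fc (-Uy) Vy = 1 := by
    rw [hVy, fc_pol, show -uy - -Uy = hy by linarith]
    field_simp
  have f2 : -1 < fc (-Uy) Va := by
    rw [hVa, fc_pol]
    apply lo22 ca
    rw [← Real.cos_pi_sub]
    exact Real.cos_lt_cos_of_nonneg_of_le_pi (by linarith) (by linarith) (by linarith)
  have f3 : fc Ua Va = 1 := by
    rw [hVa, fc_pol, show ua - Ua = -ha by linarith, Real.cos_neg]
    field_simp
  have f4 : -1 < fc Ua Vy := by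
    rw [hVy, fc_pol, show -uy - Ua = -(uy + Ua) by ring, Real.cos_neg]
    apply lo22 cy
    rw [← Real.cos_pi_sub]
    exact Real.cos_lt_cos_of_nonneg_of_le_pi (by linarith) (by linarith) (by linarith)
  have f5 : fc Uq Vq = 1 := by
    rw [hVq, fc_pol, show uq - Uq = -hq by linarith, Real.cos_neg]
    field_simp
  have f6 : -1 ≤ fc Uq Vb := by
    rw [hVb, fc_pol, show -ub - Uq = -(ub + Uq) by ring, Real.cos_neg]
    apply lo22' cb
    rw [← Real.cos_pi_sub]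
    exact Real.cos_le_cos_of_nonneg_of_le_pi (by linarith) (by linarith) (by linarith)
  have hUU : Uy + Uq < π := by
    refine kye_two (Vy := Vy) (Va := Va) (Vb := Vb) (Vp := Vq) hk ?_ (by linarith)
      (by linarith : 0 < Ua) (by linarith) (by linarith) f1 f2 f3 f4 f5 f6
    rw [add_comm Vy Va, he, add_comm Vq Vb]
  have hk' : k = 1 := by
    by_contra hn
    linarith [hk1 hn]
  rw [hk', Complex.ofReal_one, one_mul] at he
  have f7 : fc (-Uy) Vb < 1 := by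
    rw [hVb, fc_pol]
    apply hi22 cb
    exact Real.cos_lt_cos_of_nonneg_of_le_pi (by linarith) (by linarith) (by linarith)
  have f8 : fc (-Ub) Vb = 1 := by
    rw [hVb, fc_pol, show -ub - -Ub = hb by linarith]
    field_simp
  have f9 : fc (-Ub) V0 < 1 := by
    rw [hV0, fc_pol]
    apply hi22 c0
    exact Real.cos_lt_cos_of_nonneg_of_le_pi (by linarith) (by linarith) (by linarith)
  have f10 : fc d V0 = 1 := by
    rw [hV0, fc_pol, show (0 : ℝ) - d = -d by ring, Real.cos_neg]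
    field_simp
  have f11 : fc d Vb < 1 := by
    rw [hVb, fc_pol, show -ub - d = -(ub + d) by ring, Real.cos_neg]
    apply hi22 cb
    exact Real.cos_lt_cos_of_nonneg_of_le_pi (by linarith) (by linarith) (by linarith)
  have f12 : fc (-d) V0 = 1 := by
    rw [hV0, fc_pol, show (0 : ℝ) - -d = d by ring]
    field_simp
  have f13 : fc (-d) Va < 1 := by
    rw [hVa, fc_pol]
    apply hi22 ca
    exact Real.cos_lt_cos_of_nonneg_of_le_pi (by linarith) (by linarith) (by linarith)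
  have f14 : fc Ua V0 < 1 := by
    rw [hV0, fc_pol, show (0 : ℝ) - Ua = -Ua by ring, Real.cos_neg]
    apply hi22 c0
    exact Real.cos_lt_cos_of_nonneg_of_le_pi (by linarith) (by linarith) (by linarith)
  have g1 : fc (-Uy) (Vb - Vy) < 0 := by rw [fc_sub]; linarith
  have g2 : fc (-Uy) (V0 - Vb) < 0 := by
    have e := fc_three (-Uy) (-Ub) d (V0 - Vb)
    have s1 : 0 < Real.sin (d - -Ub) := Real.sin_pos_of_pos_of_lt_pi (by linarith) (by linarith)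
    have s2 : 0 < Real.sin (d - -Uy) := Real.sin_pos_of_pos_of_lt_pi (by linarith) (by linarith)
    have s3 : 0 < Real.sin (-Ub - -Uy) := Real.sin_pos_of_pos_of_lt_pi (by linarith) (by linarith)
    have s4 : Real.sin (-Uy - d) = -Real.sin (d - -Uy) := by
      rw [← Real.sin_neg]; congr 1; ring
    have a1 : 0 < -fc (-Ub) (V0 - Vb) := by rw [fc_sub]; linarith
    have a2 : 0 < fc d (V0 - Vb) := by rw [fc_sub]; linarith
    have p1 := mul_pos s2 a1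
    have p2 := mul_pos s3 a2
    rw [s4] at e
    have e2 : 0 < Real.sin (d - -Ub) * (-fc (-Uy) (V0 - Vb)) := by linarith
    have := (mul_pos_iff_of_pos_left s1).1 e2
    linarith
  have g3 : fc (-Uy) (Va - V0) < 0 := by
    have e := fc_three (-Uy) (-d) Ua (Va - V0)
    have s1 : 0 < Real.sin (Ua - -d) := Real.sin_pos_of_pos_of_lt_pi (by linarith) (by linarith)
    have s2 : 0 < Real.sin (Ua - -Uy) := Real.sin_pos_of_pos_of_lt_pi (by linarith) (by linarith)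
    have s3 : 0 < Real.sin (-d - -Uy) := Real.sin_pos_of_pos_of_lt_pi (by linarith) (by linarith)
    have s4 : Real.sin (-Uy - Ua) = -Real.sin (Ua - -Uy) := by
      rw [← Real.sin_neg]; congr 1; ring
    have a1 : 0 < -fc (-d) (Va - V0) := by rw [fc_sub]; linarith
    have a2 : 0 < fc Ua (Va - V0) := by rw [fc_sub]; linarith
    have p1 := mul_pos s2 a1
    have p2 := mul_pos s3 a2
    rw [s4] at e
    have e2 : 0 < Real.sin (Ua - -d) * (-fc (-Uy) (Va - V0)) := by linarith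
    have := (mul_pos_iff_of_pos_left s1).1 e2
    linarith
  have g4 : 0 < crs (Vb - Vy) (Va - V0) := by
    have e := crs_three (-Uy) (Va - V0) (V0 - Vb) (Vb - Vy)
    have p1 := mul_pos B (neg_pos.2 g1)
    have p2 := mul_pos A (neg_pos.2 g3)
    have e2 : 0 < crs (Vb - Vy) (Va - V0) * (-fc (-Uy) (V0 - Vb)) := by linarith
    exact (mul_pos_iff_of_pos_right (neg_pos.2 g2)).1 e2
  have g5 : 0 < fc Uq (Vb - Vy) :=
    kye_three x0 (by linarith) (by linarith) hUU g1 g2 (by rw [fc_sub]; linarith) A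
  have heq : Va - Vq = Vb - Vy := by linear_combination he
  rcases le_or_gt uq ua with hcase | hcase
  · have C1 := C hcase
    have e1 : crs (Vb - Vy) (Va - V0) = -crs (Vq - V0) (Va - Vq) := by
      rw [← heq]
      simp only [crs_eq22, Complex.sub_re, Complex.sub_im]
      ring
    linarith
  · have e1 : 1 < fc Uq Va := by
      have : fc Uq (Va - Vq) = fc Uq (Vb - Vy) := by rw [heq]
      rw [fc_sub] at this
      linarith
    rw [hVa, fc_pol, one_div_mul_eq_div, one_lt_div ca] at e1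
    have sa : 0 < Real.sin ha := Real.sin_pos_of_pos_of_lt_pi ha0 (by linarith)
    have sq : 0 < Real.sin hq := Real.sin_pos_of_pos_of_lt_pi hq0 (by linarith)
    have sd : 0 < Real.sin d := Real.sin_pos_of_pos_of_lt_pi x0 (by linarith)
    have h13 : 0 < crs W0 Wq := by
      rw [wx, wq, crs_pol22]
      have : 0 < Real.sin (uq - 0) := Real.sin_pos_of_pos_of_lt_pi (by linarith) (by linarith)
      positivity
    have h12 : 0 ≤ crs W0 Wa := by
      rw [wx, wa, crs_pol22]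
      have : 0 < Real.sin (ua - 0) := Real.sin_pos_of_pos_of_lt_pi (by linarith) (by linarith)
      positivity
    have h23 : 0 ≤ crs Wa Wq := by
      rw [wa, wq, crs_pol22]
      have : 0 < Real.sin (uq - ua) := Real.sin_pos_of_pos_of_lt_pi (by linarith) (by linarith)
      positivity
    have hco := coord22 (v := Wa) h13
    have hcs := csum22 (v := Wa) h13
    have hle : crs Wa Wq / crs W0 Wq + crs W0 Wa / crs W0 Wq ≤ 1 := by
      rw [hcs]
      have := div_pos hcr h13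
      linarith
    have hd := disk22 (ψ := Uq - π / 2) (div_nonneg h23 h13.le) (div_nonneg h12 h13.le) hle hco
      (by
        rw [nw0]
        nth_rewrite 1 [wx]
        rw [fc_pol, show (0 : ℝ) - (Uq - π / 2) = π / 2 - Uq by ring, Real.cos_pi_div_two_sub]
        have : Real.sin d ≤ Real.sin Uq :=
          (sin_lt22' x0 xp hxy (by linarith)).le
        have := mul_le_mul_of_nonneg_left this sd.le
        linarith)
      (by
        rw [nwq]
        nth_rewrite 1 [wq]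
        rw [fc_pol, show uq - (Uq - π / 2) = π / 2 - hq by linarith, Real.cos_pi_div_two_sub]
        linarith)
    rw [nwa] at hd
    nth_rewrite 1 [wa] at hd
    rw [fc_pol, show ua - (Uq - π / 2) = π / 2 - (Uq - ua) by ring,
      Real.cos_pi_div_two_sub] at hd
    have h5 : Real.sin ha ≤ Real.sin (Uq - ua) := by
      have : Real.sin ha * Real.sin ha ≤ Real.sin ha * Real.sin (Uq - ua) := by linarith
      exact le_of_mul_le_mul_left this sa
    have h6 : Real.cos ha < Real.cos (Uq - ua) := by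
      rw [← Real.cos_neg (Uq - ua), neg_sub]
      exact e1
    have h7 := Real.sin_sq_add_cos_sq ha
    have h8 := Real.sin_sq_add_cos_sq (Uq - ua)
    clear * - h5 h6 h7 h8 sa ca
    nlinarith

end H22

theorem KYE : ST_KYE := by
  intro ra rx ry rb Ra b1 b2 b3 t1 t2 t3 t4 w0a w0x w0y w0b way wyx wxb wab χa χx χy χb D W S
    hR hay hyx hxb hab
  have hpi := Real.pi_pos
  have Q := D.q
  have P := D.p
  have rx0 := Q.rx0
  have ry0 := Q.ry0
  have rb0 := Q.rb0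
  have b10 := Q.b10
  have b20 := Q.b20
  have b30 := Q.b30
  have bs := Q.bs
  have ht3 : b2 + b3 = t3 := by
    have h1 := ch_sq rx rb (b2 + b3)
    have h2 := ch_sq rx rb t3
    rw [hxb] at h1
    have h3 : Real.cos (b2 + b3) = Real.cos t3 := by
      have h4 : 0 < 2 * rx * rb := by positivity
      have h5 : 2 * rx * rb * Real.cos (b2 + b3) = 2 * rx * rb * Real.cos t3 := by linarith
      exact mul_left_cancel₀ h4.ne' h5
    exact Real.injOn_cos ⟨by linarith, by linarith⟩ ⟨P.t30.le, P.t3p.le⟩ h3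
  have hw : wyx = 0 := by
    by_contra hn
    have := W.cyx hn
    linarith
  have e1 := W.QX
  have e2 := congrArg (starRingEnd ℂ) W.PX
  rw [hw, Complex.ofReal_zero, zero_mul, add_zero] at e1
  rw [hw, S.cy, S.cb, ← ht3] at e2
  simp only [map_add, map_mul, map_sub, map_one, Complex.conj_ofReal, frc_conj, neg_neg,
    Complex.ofReal_zero, zero_mul, add_zero, sub_zero, mul_one] at e2
  have hP := P.ts
  have hS := S.t
  have hcyx : ch rx ry t2 < 2 := by rw [k_sym]; exact P.pyx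
  have hex := P.ex
  rw [← ht3] at hex
  have hx := H22.kye_geo (k := 1 - χx) Q (by linarith) P.t2p hcyx hex P.hxy
    (by linarith [W.χx0.2]) (fun h => by
      have := W.χxs (fun h2 => h (by rw [h2]; ring))
      rw [← ht3] at this
      exact this)
  apply hx
  push_cast
  linear_combination e2 - e1

end E5
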